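import Pool.Agent.MP_a0fe07.Turns
namespace Pool.Agent.MP_a0fe07

open Topology unitInterval
open scoped Manifold ContDiff

noncomputable section

section Gen

variable {Γ G : Type*} [Group Γ] [Group G] [TopologicalSpace G]

/-- Evaluation at an element of the group. -/
def ev (γ : Γ) : C(Rep Γ G, G) where
  toFun ρ := ρ.hom γ
  continuous_toFun := (continuous_apply γ).comp continuous_induced_dom

@[simp] lemma ev_apply (γ : Γ) (ρ : Rep Γ G) : ev γ ρ = ρ.hom γ := rfl

instance [IsTopologicalGroup G] : ContinuousSMul G (Rep Γ G) where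
  continuous_smul := by
    rw [continuous_induced_rng, continuous_pi_iff]
    intro γ
    have h : Continuous fun x : G × Rep Γ G => x.1 * ev γ x.2 * x.1⁻¹ := by fun_prop
    exact h

end Gen

instance : IsTopologicalGroup TwG := by
  letI := TwG.charted0
  have := TwG.lieGroup0
  exact topologicalGroup_of_lieGroup ((𝓡 1).prod (𝓡 0)) ω

/-- the circle component -/
def circ : C(TwG, Circle) := ⟨fun g => g.1, continuous_fst (X := Circle) (Y := S3)⟩
/-- the component in `S₃` -/
def perm : C(TwG, S3) := ⟨fun g => g.2, continuous_snd (X := Circle) (Y := S3)⟩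

lemma perm_mul (a b : TwG) : perm (a * b) = perm a * perm b := rfl
lemma perm_inv (a : TwG) : perm a⁻¹ = (perm a)⁻¹ := rfl

lemma circ_conj (g a : TwG) : circ (g * a * g⁻¹) =
    circ g * circ a ^ ((sgn (perm g) : ℤˣ) : ℤ) * (circ g)⁻¹ ^ ((sgn (perm a) : ℤˣ) : ℤ) := by
  change (g.1 * a.1 ^ ((sgn g.2 : ℤˣ) : ℤ)) *
    ((g.1)⁻¹ ^ ((sgn g.2 : ℤˣ) : ℤ)) ^ ((sgn (g.2 * a.2) : ℤˣ) : ℤ) = _
  rw [← zpow_mul, map_mul, Units.val_mul, ← mul_assoc, ← Units.val_mul, ← pow_two,
    Int.units_sq]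
  simp
  rfl

lemma perm_const {n : ℕ} (c : C(Fin n → I, S3)) (s t : Fin n → I) : c s = c t :=
  PreconnectedSpace.constant inferInstance c.continuous

variable {Γ : Type*} [Group Γ]

/-- The value of the cochain `α` on a path of homomorphisms. -/
def alphaFun (a b : Γ) (u : SCube (Rep Γ TwG) 1) : ℚ :=
  cyc (perm ((u 0).hom a) * perm ((u 0).hom b)) * phi (turns ((circ.comp (ev b)).comp u))

lemma turns_const (c : C(Fin 1 → I, Circle)) (h : ∀ s t, c s = c t) : turns c = 0 := by
  obtain ⟨x, hx⟩ := Circle.exp_surjective (c 0)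
  rw [turns_eq (ContinuousMap.const _ x) (fun s => by simp [hx, h s 0])]
  simp

/-- The cochain `α`. -/
def alpha (a b : Γ) : Cochain (Rep Γ TwG) 1 := ⟨alphaFun a b, by
  intro u hu
  have hu2 : ∀ s t, u s = u t := fun s t => hu.2 s t (by intro i hi; omega)
  rw [alphaFun, turns_const]
  · simp
  · intro s t
    simp [hu2 s t]⟩

lemma alpha_apply (a b : Γ) (u : SCube (Rep Γ TwG) 1) : alpha a b u = alphaFun a b u := rfl

lemma alpha_inv (a b : Γ) (g : TwG) (u : SCube (Rep Γ TwG) 1) :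
    alpha a b (trans g u) = alpha a b u := by
  obtain ⟨θ, hθ⟩ := exists_lift ((circ.comp (ev b)).comp u)
  obtain ⟨x, hx⟩ := Circle.exp_surjective (circ g)
  obtain ⟨y, hy⟩ := Circle.exp_surjective ((circ g)⁻¹ ^ ((sgn (perm ((u 0).hom b)) : ℤˣ) : ℤ))
  have hpc : ∀ s, perm ((u s).hom b) = perm ((u 0).hom b) := fun s =>
    perm_const ((perm.comp (ev b)).comp u) s 0
  have h1 : turns ((circ.comp (ev b)).comp (trans g u)) =
      ((sgn (perm g) : ℤˣ) : ℤ) * turns ((circ.comp (ev b)).comp u) := by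
    rw [turns_eq θ hθ, turns_eq (⟨fun s => x + ((sgn (perm g) : ℤˣ) : ℤ) * θ s + y, by fun_prop⟩)]
    · simp only [ContinuousMap.coe_mk]
      ring
    · intro s
      simp only [ContinuousMap.coe_mk, ContinuousMap.comp_apply, ev_apply]
      change _ = circ (g * (u s).hom b * g⁻¹)
      rw [circ_conj, hpc s, Circle.exp_add, Circle.exp_add, hx, hy]
      congr 2
      have h2 := hθ s
      simp only [ContinuousMap.comp_apply, ev_apply] at h2
      rw [← h2, ← Circle.exp_zsmul]
      simp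
  rw [alpha_apply, alpha_apply, alphaFun, alphaFun, h1]
  have h3 : perm ((trans g u 0).hom a) * perm ((trans g u 0).hom b) =
      perm g * (perm ((u 0).hom a) * perm ((u 0).hom b)) * (perm g)⁻¹ := by
    change perm (g * (u 0).hom a * g⁻¹) * perm (g * (u 0).hom b * g⁻¹) = _
    simp only [perm_mul, perm_inv]
    group
  rw [h3, cyc_conj]
  have h4 : phi (((sgn (perm g) : ℤˣ) : ℤ) * turns ((circ.comp (ev b)).comp u)) =
      ((sgn (perm g) : ℤˣ) : ℤ) * phi (turns ((circ.comp (ev b)).comp u)) := by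
    rcases Int.units_eq_one_or (sgn (perm g)) with h | h <;> simp [h]
  rw [h4]
  rcases Int.units_eq_one_or (sgn (perm g)) with h | h <;> simp [h]

lemma alpha_cocycle (a b : Γ) : coboundary (Rep Γ TwG) 1 (alpha a b) = 0 := by
  ext u
  obtain ⟨θ, hθ⟩ := exists_lift ((circ.comp (ev b)).comp u)
  have h1 : ∀ (i : Fin 2) (ε : I), alpha a b (face i ε u) =
      cyc (perm ((u 0).hom a) * perm ((u 0).hom b)) *
        phi ((face i ε θ 1 - face i ε θ 0) / (2 * Real.pi)) := by
    intro i ε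
    rw [alpha_apply, alphaFun, turns_eq (face i ε θ) (fun s => by
      rw [face_apply, hθ]; rfl)]
    congr 3
    rw [face_apply]
    have ha := perm_const ((perm.comp (ev a)).comp u) (i.insertNth ε 0) 0
    have hb := perm_const ((perm.comp (ev b)).comp u) (i.insertNth ε 0) 0
    simp only [ContinuousMap.comp_apply, ev_apply] at ha hb
    rw [ha, hb]
  rw [coboundary_two, h1, h1, h1, h1, Cochain.zero_apply]
  simp only [face_apply, insertNth_zero', insertNth_one', Pi.zero_apply, Pi.one_apply]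
  rw [← mul_sub, ← mul_sub, ← mul_sub, ← map_sub phi, ← map_sub phi, ← map_sub phi]
  convert! mul_zero _
  rw [← map_zero phi]
  congr 1
  ring

/-! ## The loop and the representation -/

/-- The loop `s ↦ (exp(2π i s), 1)` in `U(1) ⋊ S₃`. -/
def zloop : SCube TwG 1 where
  toFun s := TwG.mk (Circle.exp (2 * Real.pi * (s 0 : ℝ))) 1
  continuous_toFun := by
    have h : Continuous fun s : Fin 1 → I =>
        ((Circle.exp (2 * Real.pi * (s 0 : ℝ)), 1) : Circle × S3) := by fun_prop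
    exact h

lemma zloop_closed : zloop 0 = zloop 1 := by
  change TwG.mk (Circle.exp (2 * Real.pi * ((0 : I) : ℝ))) 1 =
    TwG.mk (Circle.exp (2 * Real.pi * ((1 : I) : ℝ))) 1
  congr 1
  simp

lemma circ_zloop (s : Fin 1 → I) :
    circ (zloop s) = Circle.exp (2 * Real.pi * (s 0 : ℝ)) := rfl
lemma perm_zloop (s : Fin 1 → I) : perm (zloop s) = 1 := rfl

/-- the transposition `(0 1)` -/
def tr1 : S3 := (Equiv.swap 0 1 : Equiv.Perm (Fin 3))
/-- the transposition `(1 2)` -/
def tr2 : S3 := (Equiv.swap 1 2 : Equiv.Perm (Fin 3))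

lemma tr1_sq : tr1 * tr1 = 1 := by
  change (Equiv.swap 0 1 : Equiv.Perm (Fin 3)) * Equiv.swap 0 1 = 1
  decide
lemma tr2_sq : tr2 * tr2 = 1 := by
  change (Equiv.swap 1 2 : Equiv.Perm (Fin 3)) * Equiv.swap 1 2 = 1
  decide
lemma cyc_tr : cyc (tr1 * tr2) = 1 := by
  change (if (Equiv.swap 0 1 : Equiv.Perm (Fin 3)) * Equiv.swap 1 2 = finRotate 3 then (1 : ℤ)
    else if (Equiv.swap 0 1 : Equiv.Perm (Fin 3)) * Equiv.swap 1 2 = (finRotate 3)⁻¹ then -1
    else 0) = 1
  decide
lemma sgn_tr2 : sgn tr2 = -1 := by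
  change Equiv.Perm.sign (Equiv.swap 1 2 : Equiv.Perm (Fin 3)) = -1
  decide

lemma mk_one_sq (f : S3) (hf : f * f = 1) : (TwG.mk 1 f) ^ 2 = 1 := by
  rw [pow_two]
  apply Prod.ext
  · change (1 : Circle) * 1 ^ ((sgn f : ℤˣ) : ℤ) = 1
    simp
  · exact hf

/-- images of the generators -/
def genImage (k : ℕ) (i : Fin k) : TwG :=
  if (i : ℕ) = 0 then TwG.mk 1 tr1 else if (i : ℕ) = 1 then TwG.mk 1 tr2 else 1

lemma genImage_sq (k : ℕ) (i : Fin k) : genImage k i ^ 2 = 1 := by
  unfold genImage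
  split_ifs
  · exact mk_one_sq _ tr1_sq
  · exact mk_one_sq _ tr2_sq
  · simp

lemma genImage_rel (k : ℕ) : ∀ r ∈ ({(List.ofFn fun i : Fin k => FreeGroup.of i ^ 2).prod} :
    Set (FreeGroup (Fin k))), FreeGroup.lift (genImage k) r = 1 := by
  intro r hr
  rw [Set.mem_singleton_iff] at hr
  subst hr
  rw [map_list_prod, List.map_ofFn]
  apply List.prod_eq_one
  intro x hx
  rw [List.mem_ofFn] at hx
  obtain ⟨i, rfl⟩ := hx
  simp [genImage_sq]

/-- The representation `ρ` sending the first two generators to `(1, (0 1))` and `(1, (1 2))` and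
the other ones to `1`. -/
def rho (k : ℕ) : Rep (SurfaceGroup k) TwG where
  hom := PresentedGroup.toGroup (genImage_rel k)

lemma rho_of (k : ℕ) (i : Fin k) : (rho k).hom (PresentedGroup.of i) = genImage k i :=
  PresentedGroup.toGroup.of (genImage_rel k)

theorem not_formal (k : ℕ) (hk : 2 ≤ k) : ¬ EquivariantlyFormal TwG (Rep (SurfaceGroup k) TwG) := by
  rintro ⟨E, _, _, hE, hcol⟩
  let a : SurfaceGroup k := PresentedGroup.of ⟨0, by omega⟩
  let b : SurfaceGroup k := PresentedGroup.of ⟨1, by omega⟩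
  have ha : (rho k).hom a = TwG.mk 1 tr1 := by rw [rho_of]; simp [genImage]
  have hb : (rho k).hom b = TwG.mk 1 tr2 := by rw [rho_of]; simp [genImage]
  refine not_collapses hE (alpha a b) (alpha_inv a b) (alpha_cocycle a b) zloop zloop_closed
    (rho k) ?_ hcol
  have h1 : turns ((circ.comp (ev b)).comp (orbitCube zloop (rho k))) = 2 := by
    rw [turns_eq ⟨fun s => 2 * (2 * Real.pi * (s 0 : ℝ)), by fun_prop⟩]
    · simp only [ContinuousMap.coe_mk, Pi.one_apply, Pi.zero_apply]
      have := Real.pi_pos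
      simp
    · intro s
      simp only [ContinuousMap.coe_mk, ContinuousMap.comp_apply, ev_apply]
      change _ = circ (zloop s * (rho k).hom b * (zloop s)⁻¹)
      rw [circ_conj, hb, perm_zloop, circ_zloop]
      change _ = Circle.exp (2 * Real.pi * (s 0 : ℝ)) * 1 ^ ((sgn 1 : ℤˣ) : ℤ) *
        (Circle.exp (2 * Real.pi * (s 0 : ℝ)))⁻¹ ^ ((sgn tr2 : ℤˣ) : ℤ)
      rw [sgn_tr2, two_mul, Circle.exp_add]
      simp
  rw [alpha_apply, alphaFun, h1]
  have h2 : perm ((orbitCube zloop (rho k) 0).hom a) * perm ((orbitCube zloop (rho k) 0).hom b) =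
      tr1 * tr2 := by
    change perm (zloop 0 * (rho k).hom a * (zloop 0)⁻¹) *
      perm (zloop 0 * (rho k).hom b * (zloop 0)⁻¹) = _
    rw [perm_mul, perm_mul, perm_mul, perm_mul, perm_inv, perm_zloop, ha, hb]
    change 1 * tr1 * 1⁻¹ * (1 * tr2 * 1⁻¹) = _
    simp
  rw [h2, cyc_tr]
  have h3 : phi 2 = 2 := by
    have : (2 : ℝ) = 1 + 1 := by norm_num
    rw [this, map_add, phi_one]
    norm_num
  rw [h3]
  norm_num

end
end Pool.Agent.MP_a0fe07
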