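import Pool.Agent.MP_a0fe07.Defs
namespace Pool.Agent.MP_a0fe07

open Topology unitInterval
open scoped Manifold ContDiff

noncomputable section

section Lift

variable {G E : Type*} [Group G] [TopologicalSpace G] [TopologicalSpace E] [MulAction G E]

/-- the class of a point in the orbit space -/
abbrev orb (G : Type*) {Z : Type*} [Group G] [MulAction G Z] (z : Z) : Orbits G Z :=
  Quotient.mk'' z

lemma orb_eq_orb {Z : Type*} [MulAction G Z] {z w : Z} :
    orb G z = orb G w ↔ ∃ g : G, g • w = z := by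
  rw [orb, orb, Quotient.eq'']
  rfl

lemma borelProj_orb {X : Type*} [TopologicalSpace X] [MulAction G X] (e : E) (x : X) :
    borelProj G E X (orb G (e, x)) = orb G e := rfl

lemma IsUniversalBundle.free (hE : IsUniversalBundle G E) {g : G} {e : E} (h : g • e = e) :
    g = 1 := by
  obtain ⟨W, -, heW, hW, τ, -, hτ⟩ := hE.locally_trivial e
  have := hτ g e heW
  rw [h] at this
  exact (mul_eq_right.mp this.symm)

lemma IsUniversalBundle.continuousSMul (hE : IsUniversalBundle G E) : ContinuousSMul G E :=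
  ⟨hE.continuous_smul⟩

/-- local sections -/
lemma IsUniversalBundle.local_section [IsTopologicalGroup G] (hE : IsUniversalBundle G E)
    (b₀ : Orbits G E) :
    ∃ U : Set (Orbits G E), IsOpen U ∧ b₀ ∈ U ∧ ∃ s : Orbits G E → E, ContinuousOn s U ∧
      ∀ b ∈ U, orb G (s b) = b := by
  have := hE.continuousSMul
  obtain ⟨e₀, rfl⟩ : ∃ e, orb G e = b₀ := Quotient.exists_rep b₀
  obtain ⟨W, hWo, heW, hW, τ, hτc, hτ⟩ := hE.locally_trivial e₀
  have hq : IsOpenQuotientMap (orb G : E → Orbits G E) := MulAction.isOpenQuotientMap_quotientMk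
  refine ⟨orb G '' W, hq.isOpenMap _ hWo, ⟨e₀, heW, rfl⟩,
    fun b => (τ (Quotient.out b))⁻¹ • Quotient.out b, ?_, ?_⟩
  · have key : ∀ e ∈ W, (τ (Quotient.out (orb G e)))⁻¹ • Quotient.out (orb G e) = (τ e)⁻¹ • e := by
      intro e he
      obtain ⟨g, hg⟩ := orb_eq_orb.mp (Quotient.out_eq (orb G e))
      rw [← hg, hτ g e he, mul_inv_rev, mul_smul, inv_smul_smul]
    rintro _ ⟨e, he, rfl⟩
    apply ContinuousAt.continuousWithinAt
    rw [← hq.continuousAt_comp_iff]
    have h1 : ContinuousAt (fun e => (τ e)⁻¹ • e) e := by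
      have : ContinuousAt τ e := hτc.continuousAt (hWo.mem_nhds he)
      fun_prop
    apply h1.congr
    filter_upwards [hWo.mem_nhds he] with e' he'
    exact (key e' he').symm
  · rintro b -
    dsimp only
    conv_rhs => rw [← Quotient.out_eq b]
    exact orb_eq_orb.mpr ⟨(τ (Quotient.out b))⁻¹, rfl⟩

/-- path lifting -/
lemma IsUniversalBundle.path_lifting [IsTopologicalGroup G] (hE : IsUniversalBundle G E)
    (b : C(I, Orbits G E)) : ∃ e : C(I, E), ∀ s, orb G (e s) = b s := by
  have := hE.continuousSMul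
  choose U hUo hbU sec hsc hs using hE.local_section
  obtain ⟨t, ht0, htmono, ⟨N, hN⟩, hts⟩ := exists_monotone_Icc_subset_open_cover_unitInterval
    (c := fun b₀ : Orbits G E => b ⁻¹' U b₀) (fun b₀ => (hUo b₀).preimage b.continuous)
    (fun s _ => Set.mem_iUnion.mpr ⟨b s, hbU _⟩)
  have main : ∀ n : ℕ, ∃ e : I → E, ContinuousOn e (Set.Icc 0 (t n)) ∧
      ∀ s, orb G (e s) = b s := by
    intro n
    induction n with
    | zero =>
      refine ⟨fun s => Quotient.out (b s), ?_, fun s => Quotient.out_eq _⟩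
      rw [ht0, Set.Icc_self]
      exact continuousOn_singleton _ _
    | succ n ih =>
      obtain ⟨e, hec, he⟩ := ih
      obtain ⟨b₀, hb₀⟩ := hts n
      have hmem : t n ∈ Set.Icc (t n) (t (n + 1)) := ⟨le_rfl, htmono (Nat.le_succ n)⟩
      have h1 : orb G (e (t n)) = orb G (sec b₀ (b (t n))) := by
        rw [he, hs b₀ _ (hb₀ hmem)]
      obtain ⟨g, hg⟩ := orb_eq_orb.mp h1
      refine ⟨fun s => if s ≤ t n then e s else if s ∈ Set.Icc (t n) (t (n + 1)) then
        g • sec b₀ (b s) else e s, ?_, ?_⟩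
      · have hun : Set.Icc 0 (t (n + 1)) = Set.Icc 0 (t n) ∪ Set.Icc (t n) (t (n + 1)) :=
          (Set.Icc_union_Icc_eq_Icc bot_le (htmono (Nat.le_succ n))).symm
        rw [hun]
        apply ContinuousOn.union_of_isClosed _ _ isClosed_Icc isClosed_Icc
        · apply hec.congr
          intro s hs
          simp [hs.2]
        · have h2 : ContinuousOn (fun s => g • sec b₀ (b s)) (Set.Icc (t n) (t (n + 1))) := by
            apply ContinuousOn.const_smul
            exact (hsc b₀).comp b.continuous.continuousOn hb₀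
          apply h2.congr
          intro s hs
          dsimp only
          by_cases hs' : s ≤ t n
          · have : s = t n := le_antisymm hs' hs.1
            subst this
            rw [if_pos le_rfl]
            exact hg.symm
          · rw [if_neg hs', if_pos hs]
      · intro s
        dsimp only
        split_ifs with h3 h4
        · exact he s
        · exact (orb_eq_orb.mpr ⟨g, rfl⟩).trans (hs b₀ _ (hb₀ h4))
        · exact he s
  obtain ⟨e, hec, he⟩ := main N
  rw [hN N le_rfl] at hec
  refine ⟨⟨e, ?_⟩, he⟩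
  rw [← continuousOn_univ]
  convert! hec
  ext s
  simp [unitInterval.le_one']

/-- lifting of singular `1`-cubes, constant cubes being lifted to constant cubes. -/
lemma IsUniversalBundle.cube_lifting [IsTopologicalGroup G] (hE : IsUniversalBundle G E)
    (b : SCube (Orbits G E) 1) : ∃ e : SCube E 1, (∀ s, orb G (e s) = b s) ∧
      ((∀ s t, b s = b t) → ∀ s t, e s = e t) := by
  by_cases hb : ∀ s t, b s = b t
  · refine ⟨ContinuousMap.const _ (Quotient.out (b 0)), fun s => ?_, fun _ s t => rfl⟩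
    rw [hb s 0]
    exact Quotient.out_eq (b 0)
  · obtain ⟨e, he⟩ := hE.path_lifting (b.comp ⟨fun s _ => s, by fun_prop⟩)
    refine ⟨e.comp ⟨fun s => s 0, by fun_prop⟩, fun s => ?_, fun h => absurd h hb⟩
    simp only [ContinuousMap.comp_apply, ContinuousMap.coe_mk, he]
    congr 1
    ext i
    rw [Subsingleton.elim i 0]

variable {X : Type*} [TopologicalSpace X] [MulAction G X]

lemma IsUniversalBundle.orb_inj (hE : IsUniversalBundle G E) {e : E} {x y : X}
    (h : orb G (e, x) = orb G (e, y)) : x = y := by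
  obtain ⟨g, hg⟩ := orb_eq_orb.mp h
  have h1 : g • e = e := congrArg Prod.fst hg
  have h2 : g • y = x := congrArg Prod.snd hg
  rw [hE.free h1, one_smul] at h2
  exact h2.symm

/-- Division: if `a : T → E` and `z : T → (E × X)/G` lie over the same map `T → E/G` then
`z t = [a t, ξ t]` for a continuous `ξ`. -/
lemma IsUniversalBundle.division [IsTopologicalGroup G] [ContinuousSMul G X]
    (hE : IsUniversalBundle G E)
    {T : Type*} [TopologicalSpace T] (a : C(T, E)) (z : C(T, Orbits G (E × X)))
    (h : ∀ t, borelProj G E X (z t) = orb G (a t)) :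
    ∃ ξ : C(T, X), ∀ t, z t = orb G (a t, ξ t) := by
  have := hE.continuousSMul
  have hex : ∀ t, ∃ x : X, z t = orb G (a t, x) := by
    intro t
    obtain ⟨⟨e, x⟩, hex⟩ : ∃ y, orb G y = z t := Quotient.exists_rep (z t)
    have h1 : orb G e = orb G (a t) := by
      rw [← h t, ← hex, borelProj_orb]
    obtain ⟨g, hg⟩ := orb_eq_orb.mp h1
    refine ⟨g⁻¹ • x, ?_⟩
    rw [← hex, orb_eq_orb]
    exact ⟨g, by simp [hg]⟩
  choose ξ hξ using hex
  refine ⟨⟨ξ, ?_⟩, hξ⟩
  rw [continuous_iff_continuousAt]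
  intro t₀
  obtain ⟨W, hWo, heW, hW, τ, hτc, hτ⟩ := hE.locally_trivial (a t₀)
  have hq : IsOpenQuotientMap (orb G : E × X → Orbits G (E × X)) :=
    MulAction.isOpenQuotientMap_quotientMk
  let Φ : Orbits G (E × X) → X := fun y => (τ (Quotient.out y).1)⁻¹ • (Quotient.out y).2
  have key : ∀ e ∈ W, ∀ x : X, Φ (orb G (e, x)) = (τ e)⁻¹ • x := by
    intro e he x
    obtain ⟨g, hg⟩ := orb_eq_orb.mp (Quotient.out_eq (orb G (e, x)))
    change (τ (Quotient.out (orb G (e, x))).1)⁻¹ • (Quotient.out (orb G (e, x))).2 = _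
    rw [← hg]
    change (τ (g • e))⁻¹ • (g • x) = _
    rw [hτ g e he, mul_inv_rev, mul_smul, inv_smul_smul]
  have hΦ : ContinuousAt Φ (z t₀) := by
    rw [hξ t₀, ← hq.continuousAt_comp_iff]
    have h1 : ContinuousAt (fun y : E × X => (τ y.1)⁻¹ • y.2) (a t₀, ξ t₀) := by
      have h2 : ContinuousAt τ (a t₀) := hτc.continuousAt (hWo.mem_nhds heW)
      have h3 : ContinuousAt (fun y : E × X => τ y.1) (a t₀, ξ t₀) :=
        ContinuousAt.comp (f := Prod.fst) h2 continuousAt_fst
      exact h3.inv.smul continuousAt_snd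
    apply h1.congr
    have h4 : (Prod.fst ⁻¹' W : Set (E × X)) ∈ 𝓝 (a t₀, ξ t₀) :=
      (hWo.preimage continuous_fst).mem_nhds heW
    filter_upwards [h4] with y hy
    exact (key y.1 hy y.2).symm
  have h5 : ContinuousAt (fun t => τ (a t) • Φ (z t)) t₀ := by
    have h2 : ContinuousAt τ (a t₀) := hτc.continuousAt (hWo.mem_nhds heW)
    have h3 : ContinuousAt (fun t => τ (a t)) t₀ :=
      ContinuousAt.comp (f := a) h2 a.continuous.continuousAt
    have h6 : ContinuousAt (fun t => Φ (z t)) t₀ :=
      ContinuousAt.comp (f := z) hΦ z.continuous.continuousAt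
    exact h3.smul h6
  apply h5.congr
  filter_upwards [(hWo.preimage a.continuous).mem_nhds heW] with t ht
  rw [hξ t, key (a t) ht, smul_inv_smul]

end Lift

end
end Pool.Agent.MP_a0fe07
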