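import Pool.Agent.MP_a0fe07.Group
namespace Pool.Agent.MP_a0fe07

open Topology unitInterval
open scoped Manifold ContDiff

noncomputable section

/-! ## A contractible space of sequences -/

section Contractible

variable {ι V U : Type} [AddCommGroup V] [Module ℝ V] [TopologicalSpace V]
  [ContinuousAdd V] [ContinuousSMul ℝ V] [AddCommGroup U] [Module ℝ U]

/-- Sequences in `V` on which none of the linear maps `ℓ i` vanishes identically. -/
def Good (ℓ : ι → V →ₗ[ℝ] U) : Set (ℕ → V) := {x | ∀ i, ∃ n, ℓ i (x n) ≠ 0}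

/-- the shift -/
def shift (x : ℕ → V) : ℕ → V := fun n => Nat.casesOn n 0 x

@[simp] lemma shift_zero (x : ℕ → V) : shift x 0 = 0 := rfl
@[simp] lemma shift_succ (x : ℕ → V) (n : ℕ) : shift x (n + 1) = x n := rfl

lemma continuous_shift : Continuous (shift : (ℕ → V) → (ℕ → V)) := by
  rw [continuous_pi_iff]
  rintro (_ | n)
  · exact continuous_const
  · exact continuous_apply n

lemma shift_good {ℓ : ι → V →ₗ[ℝ] U} {x : ℕ → V} (hx : x ∈ Good ℓ) : shift x ∈ Good ℓ := by
  intro i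
  obtain ⟨n, hn⟩ := hx i
  exact ⟨n + 1, hn⟩

lemma contractible_good (ℓ : ι → V →ₗ[ℝ] U) (v : V) (hv : ∀ i, ℓ i v ≠ 0) :
    ContractibleSpace (Good ℓ) := by
  classical
  let c : Good ℓ := ⟨fun n => Nat.casesOn n v (fun _ => 0), fun i => ⟨0, hv i⟩⟩
  let S : C(Good ℓ, Good ℓ) := ⟨fun x => ⟨shift x.1, shift_good x.2⟩,
    (continuous_shift.comp continuous_subtype_val).subtype_mk _⟩
  have h1 : (ContinuousMap.id (Good ℓ)).Homotopic S := by
    refine ⟨⟨⟨fun p => ⟨(1 - (p.1 : ℝ)) • p.2.1 + (p.1 : ℝ) • shift p.2.1, ?_⟩, ?_⟩, ?_, ?_⟩⟩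
    · intro i
      have hex := p.2.2 i
      have hn := Nat.find_spec hex
      have hmin := fun m (hm : m < Nat.find hex) => not_not.mp (Nat.find_min hex hm)
      set n := Nat.find hex with hndef
      by_cases hs : (p.1 : ℝ) = 1
      · refine ⟨n + 1, ?_⟩
        simp [hs, hn]
      · refine ⟨n, ?_⟩
        have h0 : ℓ i (shift p.2.1 n) = 0 := by
          rcases hn' : n with _ | m
          · simp
          · simpa using hmin m (by omega)
        simp only [Pi.add_apply, Pi.smul_apply, map_add, map_smul, h0, smul_zero, add_zero]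
        exact smul_ne_zero (sub_ne_zero.mpr (Ne.symm hs)) hn
    · apply Continuous.subtype_mk
      have := continuous_shift (V := V)
      fun_prop
    · intro x
      ext1
      simp
    · intro x
      ext1
      simp [S]
  have h2 : S.Homotopic (ContinuousMap.const _ c) := by
    refine ⟨⟨⟨fun p => ⟨(1 - (p.1 : ℝ)) • shift p.2.1 + (p.1 : ℝ) • c.1, ?_⟩, ?_⟩, ?_, ?_⟩⟩
    · intro i
      obtain ⟨n, hn⟩ := p.2.2 i
      by_cases hs : (p.1 : ℝ) = 0
      · refine ⟨n + 1, ?_⟩
        simp [hs, hn]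
      · refine ⟨0, ?_⟩
        simp only [Pi.add_apply, Pi.smul_apply, shift_zero, smul_zero, zero_add, map_smul]
        exact smul_ne_zero hs (hv i)
    · apply Continuous.subtype_mk
      have := continuous_shift (V := V)
      fun_prop
    · intro x
      ext1
      simp [S]
    · intro x
      ext1
      simp
  rw [contractible_iff_id_nullhomotopic]
  exact ⟨c, h1.trans h2⟩

end Contractible

/-! ## Free actions of finite groups -/

lemma finite_local_triviality {F Y : Type*} [Group F] [Finite F] [TopologicalSpace F]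
    [DiscreteTopology F] [TopologicalSpace Y] [T2Space Y] [MulAction F Y]
    [ContinuousConstSMul F Y] (hfree : ∀ (f : F) (y : Y), f • y = y → f = 1) (y₀ : Y) :
    ∃ W : Set Y, IsOpen W ∧ y₀ ∈ W ∧ (∀ f : F, ∀ w ∈ W, f • w ∈ W) ∧
      ∃ τ : Y → F, ContinuousOn τ W ∧ ∀ f : F, ∀ w ∈ W, τ (f • w) = f * τ w := by
  classical
  have hsep : ∀ f : F, ∃ A B : Set Y, IsOpen A ∧ IsOpen B ∧ y₀ ∈ A ∧ f • y₀ ∈ B ∧
      (f ≠ 1 → Disjoint A B) := by
    intro f
    by_cases hf : f = 1
    · exact ⟨Set.univ, Set.univ, isOpen_univ, isOpen_univ, trivial, trivial, fun h => absurd hf h⟩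
    · obtain ⟨A, B, hA, hB, h1, h2, h3⟩ := t2_separation (x := y₀) (y := f • y₀)
        (fun h => hf (hfree f y₀ h.symm))
      exact ⟨A, B, hA, hB, h1, h2, fun _ => h3⟩
  choose A B hA hB hyA hyB hAB using hsep
  let W₀ : Set Y := ⋂ f : F, A f ∩ (fun y => f • y) ⁻¹' B f
  have hW₀ : IsOpen W₀ := isOpen_iInter_of_finite fun f =>
    (hA f).inter ((hB f).preimage (continuous_const_smul f))
  have hyW₀ : y₀ ∈ W₀ := Set.mem_iInter.mpr fun f => ⟨hyA f, hyB f⟩
  have hdis : ∀ (f : F) (y : Y), y ∈ W₀ → f • y ∈ W₀ → f = 1 := by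
    intro f y hy hfy
    by_contra hf
    have h1 := (Set.mem_iInter.mp hy f).2
    have h2 := (Set.mem_iInter.mp hfy f).1
    exact Set.disjoint_left.mp (hAB f hf) h2 h1
  have huniq : ∀ (y : Y) (f g : F), f⁻¹ • y ∈ W₀ → g⁻¹ • y ∈ W₀ → f = g := by
    intro y f g hf hg
    have h3 : (g⁻¹ * f) • (f⁻¹ • y) ∈ W₀ := by
      rw [mul_smul, smul_inv_smul]; exact hg
    have := hdis _ _ hf h3
    rw [inv_mul_eq_one] at this
    exact this.symm
  let W : Set Y := ⋃ f : F, (fun y => f⁻¹ • y) ⁻¹' W₀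
  let τ : Y → F := fun y => if h : ∃ f : F, f⁻¹ • y ∈ W₀ then h.choose else 1
  have hτ : ∀ (y : Y) (f : F), f⁻¹ • y ∈ W₀ → τ y = f := by
    intro y f hf
    have h : ∃ f : F, f⁻¹ • y ∈ W₀ := ⟨f, hf⟩
    simp only [τ, dif_pos h]
    exact huniq y _ _ h.choose_spec hf
  have hopen : ∀ f : F, IsOpen ((fun y => f⁻¹ • y) ⁻¹' W₀ : Set Y) := fun f =>
    hW₀.preimage (continuous_const_smul _)
  refine ⟨W, isOpen_iUnion hopen, Set.mem_iUnion.mpr ⟨1, by simpa using hyW₀⟩, ?_, τ, ?_, ?_⟩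
  · intro f w hw
    obtain ⟨g, hg⟩ := Set.mem_iUnion.mp hw
    refine Set.mem_iUnion.mpr ⟨f * g, ?_⟩
    simp only [Set.mem_preimage, mul_inv_rev, mul_smul, inv_smul_smul] at hg ⊢
    exact hg
  · intro w hw
    obtain ⟨g, hg⟩ := Set.mem_iUnion.mp hw
    apply ContinuousAt.continuousWithinAt
    apply ContinuousAt.congr (f := fun _ => g) continuousAt_const
    filter_upwards [(hopen g).mem_nhds hg] with y hy
    exact (hτ y g hy).symm
  · intro f w hw
    obtain ⟨g, hg⟩ := Set.mem_iUnion.mp hw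
    rw [hτ w g hg]
    apply hτ
    simp only [Set.mem_preimage] at hg
    simp only [mul_inv_rev, mul_smul, inv_smul_smul]
    exact hg

end
end Pool.Agent.MP_a0fe07
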