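import Pool.Agent.MP_a0fe07.Contr
namespace Pool.Agent.MP_a0fe07

open Topology unitInterval
open scoped Manifold ContDiff ComplexConjugate

noncomputable section

/-! ## A universal bundle for `U(1) ⋊ S₃` -/

/-- complex conjugation, or the identity -/
def cj (a : ℤˣ) (z : ℂ) : ℂ := if a = 1 then z else conj z

lemma cj_one (z : ℂ) : cj 1 z = z := by simp [cj]

lemma cj_mul (a b : ℤˣ) (z : ℂ) : cj (a * b) z = cj a (cj b z) := by
  rcases Int.units_eq_one_or a with rfl | rfl <;> rcases Int.units_eq_one_or b with rfl | rfl <;>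
    simp [cj]

lemma cj_map_mul (a : ℤˣ) (z w : ℂ) : cj a (z * w) = cj a z * cj a w := by
  rcases Int.units_eq_one_or a with rfl | rfl <;> simp [cj]

lemma cj_circle (a : ℤˣ) (t : Circle) : cj a (t : ℂ) = ((t ^ ((a : ℤˣ) : ℤ) : Circle) : ℂ) := by
  rcases Int.units_eq_one_or a with rfl | rfl
  · simp [cj]
  · simp only [cj, Units.val_neg, Units.val_one, zpow_neg, zpow_one]
    rw [Circle.coe_inv_eq_conj]
    simp

lemma cj_ne_zero (a : ℤˣ) {z : ℂ} (hz : z ≠ 0) : cj a z ≠ 0 := by
  rcases Int.units_eq_one_or a with rfl | rfl <;> simp [cj, hz]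

lemma continuous_cj (a : ℤˣ) : Continuous (cj a) := by
  rcases Int.units_eq_one_or a with rfl | rfl
  · have : cj 1 = id := by
      funext z; simp [cj]
    rw [this]
    exact continuous_id
  · have : cj (-1) = fun z => conj z := by
      funext z; simp [cj]
    rw [this]
    exact Complex.continuous_conj

/-- the family of linear maps defining the first factor -/
def ell1 : Unit → ℂ →ₗ[ℝ] ℂ := fun _ => LinearMap.id
/-- the family of linear maps defining the second factor -/
def ell2 : {p : S3 × S3 // p.1 ≠ p.2} → (S3 → ℝ) →ₗ[ℝ] ℝ :=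
  fun p => (LinearMap.proj p.1.1 : (S3 → ℝ) →ₗ[ℝ] ℝ) - LinearMap.proj p.1.2

/-- nonzero sequences of complex numbers -/
abbrev E1 : Type := Good ell1
/-- sequences `w` of functions on `S₃` such that the six sequences `n ↦ w n h` are distinct -/
abbrev E2 : Type := Good ell2

instance : ContractibleSpace E1 := contractible_good ell1 1 (fun _ => by simp [ell1])

instance : ContractibleSpace E2 := by
  obtain ⟨n, ⟨e⟩⟩ := Finite.exists_equiv_fin S3
  refine contractible_good ell2 (fun h => ((e h : ℕ) : ℝ)) ?_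
  rintro ⟨⟨f, g⟩, hfg⟩
  simp only [ell2, LinearMap.sub_apply, LinearMap.proj_apply]
  rw [sub_ne_zero]
  intro h
  apply hfg
  apply e.injective
  ext
  exact_mod_cast h

instance : MulAction TwG E1 where
  smul g v := ⟨fun n => (g.1 : ℂ) * cj (sgn g.2) (v.1 n), fun i => by
    obtain ⟨n, hn⟩ := v.2 i
    exact ⟨n, mul_ne_zero (Circle.coe_ne_zero _) (cj_ne_zero _ hn)⟩⟩
  one_smul v := by
    ext n
    change ((1 : Circle) : ℂ) * cj (sgn 1) (v.1 n) = v.1 n
    simp [cj_one]
  mul_smul g h v := by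
    ext n
    change ((g.1 * h.1 ^ ((sgn g.2 : ℤˣ) : ℤ) : Circle) : ℂ) * cj (sgn (g.2 * h.2)) (v.1 n) =
      (g.1 : ℂ) * cj (sgn g.2) ((h.1 : ℂ) * cj (sgn h.2) (v.1 n))
    rw [map_mul, cj_mul, cj_map_mul, cj_circle, Circle.coe_mul, mul_assoc]

lemma smul_E1_apply (g : TwG) (v : E1) (n : ℕ) :
    (g • v).1 n = (g.1 : ℂ) * cj (sgn g.2) (v.1 n) := rfl

instance : MulAction S3 E2 where
  smul f w := ⟨fun n h => w.1 n (f⁻¹ * h), by
    rintro ⟨⟨h, k⟩, hhk⟩
    obtain ⟨n, hn⟩ := w.2 ⟨⟨f⁻¹ * h, f⁻¹ * k⟩, fun h => hhk (mul_left_cancel h)⟩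
    exact ⟨n, hn⟩⟩
  one_smul w := by
    ext n h
    change w.1 n (1⁻¹ * h) = w.1 n h
    simp
  mul_smul f g w := by
    ext n h
    change w.1 n ((f * g)⁻¹ * h) = w.1 n (g⁻¹ * (f⁻¹ * h))
    rw [mul_inv_rev, mul_assoc]

lemma smul_E2_apply (f : S3) (w : E2) (n : ℕ) (h : S3) : (f • w).1 n h = w.1 n (f⁻¹ * h) := rfl

lemma free_E2 (f : S3) (w : E2) (hf : f • w = w) : f = 1 := by
  by_contra hne
  obtain ⟨n, hn⟩ := w.2 ⟨⟨1, f⟩, fun h => hne h.symm⟩
  apply hn
  have := congrFun (congrFun (congrArg Subtype.val hf) n) f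
  rw [smul_E2_apply, inv_mul_cancel] at this
  simp [ell2, this]

lemma continuous_smul_E2 : Continuous fun x : S3 × E2 => x.1 • x.2 := by
  rw [continuous_prod_of_discrete_left]
  intro f
  apply Continuous.subtype_mk
  rw [continuous_pi_iff]
  intro n
  rw [continuous_pi_iff]
  intro h
  have h1 : Continuous fun w : E2 => w.1 n := (continuous_apply n).comp continuous_subtype_val
  exact (continuous_apply (f⁻¹ * h)).comp h1

instance : ContinuousConstSMul S3 E2 :=
  ⟨fun f => continuous_smul_E2.comp (Continuous.prodMk_right f)⟩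

/-- the total space of a universal bundle for `U(1) ⋊ S₃` -/
def EU : Type := E1 × E2

instance : TopologicalSpace EU := inferInstanceAs (TopologicalSpace (E1 × E2))
instance : ContractibleSpace EU := inferInstanceAs (ContractibleSpace (E1 × E2))

instance : MulAction TwG EU where
  smul g x := (g • x.1, g.2 • x.2)
  one_smul x := by
    apply Prod.ext
    · exact one_smul TwG x.1
    · exact one_smul S3 x.2
  mul_smul g h x := by
    apply Prod.ext
    · exact mul_smul g h x.1
    · exact mul_smul g.2 h.2 x.2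

lemma smul_EU (g : TwG) (x : EU) : g • x = ((g • x.1, g.2 • x.2) : E1 × E2) := rfl

lemma continuous_smul_EU : Continuous fun x : TwG × EU => x.1 • x.2 := by
  have h1 : Continuous fun x : (Circle × S3) × (E1 × E2) => (show TwG from x.1) • x.2.1 := by
    apply Continuous.subtype_mk
    rw [continuous_pi_iff]
    intro n
    have h2 : Continuous fun y : S3 × ℂ => cj (sgn y.1) y.2 := by
      rw [continuous_prod_of_discrete_left]
      intro f
      exact continuous_cj (sgn f)
    have h3 : Continuous fun x : (Circle × S3) × (E1 × E2) => (x.1.2, x.2.1.1 n) :=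
      (continuous_snd.comp continuous_fst).prodMk
        ((continuous_apply n).comp (continuous_subtype_val.comp
          (continuous_fst.comp continuous_snd)))
    have h4 : Continuous fun x : (Circle × S3) × (E1 × E2) => ((x.1.1 : Circle) : ℂ) := by
      fun_prop
    exact h4.mul (h2.comp h3)
  have h5 : Continuous fun x : (Circle × S3) × (E1 × E2) => x.1.2 • x.2.2 :=
    continuous_smul_E2.comp ((continuous_snd.comp continuous_fst).prodMk
      (continuous_snd.comp continuous_snd))
  exact h1.prodMk h5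

/-- the unit complex number in the direction of a nonzero one (`1` for `0`) -/
def udir (z : ℂ) : Circle := if h : z = 0 then 1 else ⟨z / ‖z‖,
  mem_sphere_zero_iff_norm.2 <| by
    rw [norm_div, Complex.norm_real, norm_norm, div_self (norm_ne_zero_iff.mpr h)]⟩

lemma udir_coe {z : ℂ} (hz : z ≠ 0) : ((udir z : Circle) : ℂ) = z / ‖z‖ := by
  simp [udir, hz]

lemma udir_smul (t : Circle) (a : ℤˣ) {z : ℂ} (hz : z ≠ 0) :
    udir ((t : ℂ) * cj a z) = t * udir z ^ ((a : ℤˣ) : ℤ) := by
  apply Circle.ext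
  rw [udir_coe (mul_ne_zero (Circle.coe_ne_zero _) (cj_ne_zero _ hz)), Circle.coe_mul,
    ← cj_circle, udir_coe hz]
  have h1 : ‖cj a z‖ = ‖z‖ := by
    rcases Int.units_eq_one_or a with rfl | rfl <;> simp [cj]
  have h2 : cj a (z / ‖z‖) = cj a z / ‖z‖ := by
    rcases Int.units_eq_one_or a with rfl | rfl <;> simp [cj]
  rw [norm_mul, Circle.norm_coe, one_mul, h1, h2, mul_div_assoc]

lemma continuousOn_udir : ContinuousOn udir {z | z ≠ 0} := by
  have hind : Topology.IsInducing (fun z : Circle => (z : ℂ)) := ⟨rfl⟩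
  apply hind.continuousOn_iff.mpr
  have h : ContinuousOn (fun z : ℂ => z / ‖z‖) {z | z ≠ 0} := by
    apply ContinuousOn.div continuousOn_id (by fun_prop)
    intro z hz
    simpa using hz
  apply h.congr
  intro z hz
  exact udir_coe hz

lemma isUniversalBundle_EU : IsUniversalBundle TwG EU where
  continuous_smul := continuous_smul_EU
  contractible := inferInstance
  locally_trivial := by
    intro x
    obtain ⟨n, hn⟩ := x.1.2 ()
    obtain ⟨W, hWo, hxW, hWinv, τ, hτc, hτ⟩ := finite_local_triviality free_E2 x.2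
    refine ⟨{y : E1 × E2 | y.1.1 n ≠ 0 ∧ y.2 ∈ W}, ?_, ⟨hn, hxW⟩, ?_,
      fun y => TwG.mk (udir (y.1.1 n)) (τ y.2), ?_, ?_⟩
    · have h1 : Continuous fun y : E1 × E2 => y.1.1 n :=
        (continuous_apply n).comp (continuous_subtype_val.comp continuous_fst)
      exact (isOpen_ne.preimage h1).inter (hWo.preimage continuous_snd)
    · rintro g y ⟨hy1, hy2⟩
      exact ⟨mul_ne_zero (Circle.coe_ne_zero _) (cj_ne_zero _ hy1), hWinv g.2 _ hy2⟩
    · have h1 : Continuous fun y : E1 × E2 => y.1.1 n :=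
        (continuous_apply n).comp (continuous_subtype_val.comp continuous_fst)
      have h2 : ContinuousOn (fun y : E1 × E2 => udir (y.1.1 n))
          {y : E1 × E2 | y.1.1 n ≠ 0 ∧ y.2 ∈ W} :=
        continuousOn_udir.comp h1.continuousOn (fun y hy => hy.1)
      have h3 : ContinuousOn (fun y : E1 × E2 => τ y.2)
          {y : E1 × E2 | y.1.1 n ≠ 0 ∧ y.2 ∈ W} :=
        hτc.comp continuous_snd.continuousOn (fun y hy => hy.2)
      exact h2.prodMk h3
    · rintro g y ⟨hy1, hy2⟩
      apply Prod.ext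
      · exact udir_smul _ _ hy1
      · exact hτ g.2 y.2 hy2

end
end Pool.Agent.MP_a0fe07
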