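import Mathlib

/-!
# Definitions for MP_a0fe07_gt

* cubical singular cochains with rational coefficients (Serre's normalisation),
* the Serre filtration of a map, the vanishing of the differential `d_r` of its spectral sequence,
  collapse at `E_2`,
* universal principal `G`-bundles, homotopy orbit spaces (Borel construction),
* representation spaces `Hom(π, G)` and fundamental groups of closed nonorientable surfaces,
* compact Lie groups as a predicate on topological groups.

The file `Pool/Agent/MP_a0fe07/Pages.lean` constructs the pages `E_r` as quotient vector spaces and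
the differentials `d_r` as linear maps and proves that `CollapsesAtE2` below says exactly that
`d_r = 0` for all `r ≥ 2` (`collapsesAtE2_iff`).
-/

namespace Pool.Agent.MP_a0fe07

open Topology unitInterval
open scoped Manifold ContDiff

noncomputable section

/-! ## Cubical singular cochains -/

section Cochains

variable {Y : Type*} [TopologicalSpace Y] {n : ℕ}

/-- Singular `n`-cubes of `Y`: continuous maps `[0,1]^n → Y`. -/
abbrev SCube (Y : Type*) [TopologicalSpace Y] (n : ℕ) := C(Fin n → I, Y)

/-- A function on `[0,1]^n` depends only on its first `p` coordinates. -/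
def DependsOnFirst {Z : Type*} (p : ℕ) (w : (Fin n → I) → Z) : Prop :=
  ∀ s t : Fin n → I, (∀ i : Fin n, (i : ℕ) < p → s i = t i) → w s = w t

/-- A singular cube is degenerate (in Serre's sense) if its dimension is positive and it does not
depend on its last coordinate. -/
def Degenerate (u : SCube Y n) : Prop := 0 < n ∧ DependsOnFirst (n - 1) u

/-- The face of an `(n+1)`-cube obtained by giving the coordinate number `i` the value `ε`. -/
def face (i : Fin (n + 1)) (ε : I) (u : SCube Y (n + 1)) : SCube Y n where
  toFun s := u (i.insertNth ε s)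
  continuous_toFun := by fun_prop

/-- `f` is a (normalised, rational, cubical singular) `n`-cochain of `Y`: a rational function on the
set of singular `n`-cubes vanishing on degenerate cubes. -/
def IsCochain (f : SCube Y n → ℚ) : Prop := ∀ u, Degenerate u → f u = 0

/-- The cubical coboundary
`(δ f)(u) = ∑ᵢ (-1)^i (f(u with i-th coordinate 1) - f(u with i-th coordinate 0))`. -/
def cobd (f : SCube Y n → ℚ) : SCube Y (n + 1) → ℚ := fun u =>
  ∑ i : Fin (n + 1), (-1) ^ (i : ℕ) * (f (face i 1 u) - f (face i 0 u))

end Cochains

/-! ## The Serre spectral sequence -/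

section SerreSS

variable {Y B : Type*} [TopologicalSpace Y] [TopologicalSpace B] (π : C(Y, B)) {n : ℕ}

/-- The Serre filtration `F^p C^n(Y)` of `π : Y → B`: cochains vanishing on all singular cubes `u`
of filtration `< p`, i.e. such that `π ∘ u` depends only on the first `q` coordinates for some
`q < p`. -/
def InF (p : ℤ) (f : SCube Y n → ℚ) : Prop :=
  IsCochain f ∧ ∀ q : ℕ, (q : ℤ) < p → ∀ u : SCube Y n,
    DependsOnFirst q (fun s => π (u s)) → f u = 0

/-- `x ∈ Z_r^p`, where `Z_r^p = {x ∈ F^p C^n : δ x ∈ F^{p+r} C^{n+1}}`. -/
def InZ (r p : ℤ) (x : SCube Y n → ℚ) : Prop := InF π p x ∧ InF π (p + r) (cobd x)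

/-- The differential `d_r : E_r^p → E_r^{p+r}` (on classes of total degree `n`) is zero, where
`E_r^p = Z_r^p / (Z_{r-1}^{p+1} + δ Z_{r-1}^{p-r+1})` and `d_r [x] = [δ x]`: for all `x ∈ Z_r^p`
there are `y ∈ Z_{r-1}^{p+r+1}` and `w ∈ Z_{r-1}^{p+1}` with `δ x = y + δ w`. -/
def DiffVanishes (r p : ℤ) (n : ℕ) : Prop :=
  ∀ x : SCube Y n → ℚ, InZ π r p x → ∃ (y : SCube Y (n + 1) → ℚ) (w : SCube Y n → ℚ),
    InZ π (r - 1) (p + r + 1) y ∧ InZ π (r - 1) (p + 1) w ∧ cobd x = y + cobd w

/-- The Serre spectral sequence of `π` (with rational coefficients) collapses at `E_2`: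
all differentials `d_r`, `r ≥ 2`, vanish. -/
def CollapsesAtE2 : Prop := ∀ r : ℤ, 2 ≤ r → ∀ (p : ℤ) (n : ℕ), DiffVanishes π r p n

end SerreSS

/-! ## Universal bundles and homotopy orbit spaces -/

section Borel

/-- `E` (a space with an action of the topological group `G`) is the total space of a universal
principal `G`-bundle `E → E/G`: the action is continuous, `E` is contractible, and the action is
principal and locally trivial, i.e. every point of `E` has an open `G`-invariant neighbourhood `W`
with a continuous `G`-equivariant map `τ : W → G` (equivalently, an equivariant homeomorphism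
`W ≅ G × (W/G)` over `W/G`). -/
structure IsUniversalBundle (G E : Type*) [Group G] [TopologicalSpace G] [TopologicalSpace E]
    [MulAction G E] : Prop where
  continuous_smul : Continuous fun x : G × E => x.1 • x.2
  contractible : ContractibleSpace E
  locally_trivial : ∀ e : E, ∃ W : Set E, IsOpen W ∧ e ∈ W ∧ (∀ g : G, ∀ w ∈ W, g • w ∈ W) ∧
    ∃ τ : E → G, ContinuousOn τ W ∧ ∀ g : G, ∀ w ∈ W, τ (g • w) = g * τ w

/-- The orbit space `Z/G`. -/
abbrev Orbits (G Z : Type*) [Group G] [MulAction G Z] : Type _ := MulAction.orbitRel.Quotient G Z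

/-- The projection `(E × X)/G → E/G` from the homotopy orbit space `E ×_G X` (the quotient of
`E × X` by the diagonal action) to the classifying space. -/
def borelProj (G E X : Type*) [Group G] [TopologicalSpace E] [MulAction G E]
    [TopologicalSpace X] [MulAction G X] : C(Orbits G (E × X), Orbits G E) where
  toFun := Quotient.map' Prod.fst (by
    rintro a b ⟨g, rfl⟩
    exact ⟨g, rfl⟩)
  continuous_toFun := continuous_quot_mk.comp continuous_fst |>.quotient_lift _

/-- A `G`-space `X` is equivariantly formal if for some universal principal `G`-bundle `E → E/G`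
the Serre spectral sequence of `X → E ×_G X → E/G` with rational coefficients collapses at
`E_2`. (So `¬ EquivariantlyFormal G X` says that it collapses for *no* choice of the universal
bundle; in mathematics the choice of the universal bundle does not matter.) -/
def EquivariantlyFormal (G X : Type*) [Group G] [TopologicalSpace G] [TopologicalSpace X]
    [MulAction G X] : Prop :=
  ∃ (E : Type) (_ : TopologicalSpace E) (_ : MulAction G E), IsUniversalBundle G E ∧
    CollapsesAtE2 (borelProj G E X)

end Borel

/-! ## Representation spaces of surface groups -/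

section Rep

/-- The fundamental group of the connected sum of `k` real projective planes,
`⟨a_1, …, a_k ∣ a_1² ⋯ a_k² = 1⟩`. -/
abbrev SurfaceGroup (k : ℕ) : Type :=
  PresentedGroup ({(List.ofFn fun i : Fin k => FreeGroup.of i ^ 2).prod} : Set (FreeGroup (Fin k)))

/-- The representation space `Hom(Γ, G)`. -/
structure Rep (Γ G : Type*) [Group Γ] [Group G] where
  /-- the homomorphism -/
  hom : Γ →* G

variable {Γ G : Type*} [Group Γ] [Group G]

/-- The topology of pointwise convergence on `Hom(Γ, G)`. -/
instance [TopologicalSpace G] : TopologicalSpace (Rep Γ G) :=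
  TopologicalSpace.induced (fun (ρ : Rep Γ G) (γ : Γ) => ρ.hom γ) inferInstance

/-- The conjugation action `(h • ρ)(γ) = h ρ(γ) h⁻¹` of `G` on `Hom(Γ, G)`. -/
instance : MulAction G (Rep Γ G) where
  smul h ρ := ⟨(MulAut.conj h).toMonoidHom.comp ρ.hom⟩
  one_smul ρ := by
    obtain ⟨f⟩ := ρ
    change Rep.mk _ = Rep.mk _
    congr 1; ext γ; simp
  mul_smul g h ρ := by
    obtain ⟨f⟩ := ρ
    change Rep.mk ((MulAut.conj (g * h)).toMonoidHom.comp f) =
      Rep.mk ((MulAut.conj g).toMonoidHom.comp ((MulAut.conj h).toMonoidHom.comp f))
    congr 1; ext γ; simp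

end Rep

/-! ## Compact Lie groups -/

/-- The topological group `G` is (underlies) a compact Lie group: it is compact Hausdorff and has
the structure of a (real analytic) Lie group modelled on a finite-dimensional real vector
space. -/
def IsCompactLieGroup (G : Type*) [Group G] [TopologicalSpace G] : Prop :=
  CompactSpace G ∧ T2Space G ∧
    ∃ (V : Type) (_ : NormedAddCommGroup V) (_ : NormedSpace ℝ V) (_ : ChartedSpace V G),
      FiniteDimensional ℝ V ∧ LieGroup 𝓘(ℝ, V) ω G

end

end Pool.Agent.MP_a0fe07
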