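import Pool.Agent.MP_a0fe07.Defs
namespace Pool.Agent.MP_a0fe07

open Topology
open scoped Manifold ContDiff

noncomputable section

/-- The symmetric group `S₃` with the discrete topology. -/
def S3 : Type := Equiv.Perm (Fin 3)

instance : Group S3 := inferInstanceAs (Group (Equiv.Perm (Fin 3)))
instance : DecidableEq S3 := inferInstanceAs (DecidableEq (Equiv.Perm (Fin 3)))
instance : Finite S3 := inferInstanceAs (Finite (Equiv.Perm (Fin 3)))
instance : TopologicalSpace S3 := ⊥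
instance : DiscreteTopology S3 := ⟨rfl⟩

/-- The sign character of `S₃`. -/
def sgn : S3 →* ℤˣ := Equiv.Perm.sign

/-- The compact group `U(1) ⋊ S₃`, where `S₃` acts on `U(1)` through the sign character and
inversion. -/
def TwG : Type := Circle × S3

namespace TwG

instance : TopologicalSpace TwG := inferInstanceAs (TopologicalSpace (Circle × S3))
instance : CompactSpace TwG := inferInstanceAs (CompactSpace (Circle × S3))
instance : T2Space TwG := inferInstanceAs (T2Space (Circle × S3))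

/-- the element `(t, f)` of `U(1) ⋊ S₃` -/
def mk (t : Circle) (f : S3) : TwG := (t, f)

instance : Group TwG where
  mul a b := mk (a.1 * b.1 ^ ((sgn a.2 : ℤˣ) : ℤ)) (a.2 * b.2)
  one := mk 1 1
  inv a := mk ((a.1)⁻¹ ^ ((sgn a.2 : ℤˣ) : ℤ)) (a.2)⁻¹
  mul_assoc a b c := by
    apply Prod.ext
    · change (a.1 * b.1 ^ ((sgn a.2 : ℤˣ) : ℤ)) * c.1 ^ ((sgn (a.2 * b.2) : ℤˣ) : ℤ) =
        a.1 * (b.1 * c.1 ^ ((sgn b.2 : ℤˣ) : ℤ)) ^ ((sgn a.2 : ℤˣ) : ℤ)
      rw [map_mul, Units.val_mul, mul_zpow, ← zpow_mul, mul_assoc, mul_comm ((sgn b.2 : ℤˣ) : ℤ)]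
    · exact mul_assoc a.2 b.2 c.2
  one_mul a := by
    apply Prod.ext
    · change 1 * a.1 ^ ((sgn 1 : ℤˣ) : ℤ) = a.1
      simp
    · exact one_mul a.2
  mul_one a := by
    apply Prod.ext
    · change a.1 * 1 ^ ((sgn a.2 : ℤˣ) : ℤ) = a.1
      simp
    · exact mul_one a.2
  inv_mul_cancel a := by
    apply Prod.ext
    · change (a.1)⁻¹ ^ ((sgn a.2 : ℤˣ) : ℤ) * a.1 ^ ((sgn (a.2)⁻¹ : ℤˣ) : ℤ) = 1
      rw [map_inv, Int.units_inv_eq_self, ← mul_zpow]
      simp
    · exact inv_mul_cancel a.2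

lemma mul_def (a b : TwG) : a * b = mk (a.1 * b.1 ^ ((sgn a.2 : ℤˣ) : ℤ)) (a.2 * b.2) := rfl
lemma inv_def (a : TwG) : a⁻¹ = mk ((a.1)⁻¹ ^ ((sgn a.2 : ℤˣ) : ℤ)) (a.2)⁻¹ := rfl

/-- the model vector space of `U(1) ⋊ S₃` (one-dimensional) -/
abbrev V : Type := EuclideanSpace ℝ (Fin 1) × EuclideanSpace ℝ (Fin 0)

section

attribute [local instance] ChartedSpace.ofDiscreteTopology

/-- The manifold structure of `S₃` (dimension zero). -/
local instance chartedS3 : ChartedSpace (EuclideanSpace ℝ (Fin 0)) S3 :=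
  ChartedSpace.ofDiscreteTopology

local instance manifoldS3 : IsManifold (𝓡 0) ω S3 := IsManifold.of_discreteTopology ω

/-- The manifold structure of `U(1) ⋊ S₃`, a disjoint union of six circles. -/
@[reducible] def charted0 :
    ChartedSpace (ModelProd (EuclideanSpace ℝ (Fin 1)) (EuclideanSpace ℝ (Fin 0))) TwG :=
  inferInstanceAs (ChartedSpace
    (ModelProd (EuclideanSpace ℝ (Fin 1)) (EuclideanSpace ℝ (Fin 0))) (Circle × S3))

attribute [local instance] charted0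

lemma manifold0 : IsManifold ((𝓡 1).prod (𝓡 0)) ω TwG :=
  inferInstanceAs (IsManifold ((𝓡 1).prod (𝓡 0)) ω (Circle × S3))

lemma contMDiff_unitPow (a : ℤˣ) :
    ContMDiff (𝓡 1) (𝓡 1) ω (fun t : Circle => t ^ ((a : ℤˣ) : ℤ)) := by
  rcases Int.units_eq_one_or a with rfl | rfl
  · have h : (fun t : Circle => t ^ (((1 : ℤˣ) : ℤˣ) : ℤ)) = id := by funext t; simp
    rw [h]
    exact contMDiff_id
  · have h : (fun t : Circle => t ^ (((-1 : ℤˣ) : ℤˣ) : ℤ)) = fun t => t⁻¹ := by funext t; simp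
    rw [h]
    exact contMDiff_inv (𝓡 1) ω

lemma aux_mul (p : (Circle × S3) × (Circle × S3)) :
    ContMDiffAt ((((𝓡 1).prod (𝓡 0))).prod ((𝓡 1).prod (𝓡 0))) ((𝓡 1).prod (𝓡 0)) ω
      (fun q : (Circle × S3) × (Circle × S3) =>
        ((q.1.1 * q.2.1 ^ ((sgn q.1.2 : ℤˣ) : ℤ), q.1.2 * q.2.2) : Circle × S3)) p := by
  have h1 : ContMDiffAt ((((𝓡 1).prod (𝓡 0))).prod ((𝓡 1).prod (𝓡 0))) ((𝓡 1).prod (𝓡 0)) ω
      (fun q : (Circle × S3) × (Circle × S3) =>
        ((q.1.1 * q.2.1 ^ ((sgn p.1.2 : ℤˣ) : ℤ), p.1.2 * p.2.2) : Circle × S3)) p := by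
    apply ContMDiffAt.prodMk
    · have hf : ContMDiffAt ((((𝓡 1).prod (𝓡 0))).prod ((𝓡 1).prod (𝓡 0))) (𝓡 1) ω
          (fun q : (Circle × S3) × (Circle × S3) => q.1.1) p := contMDiffAt_fst.fst
      have hg : ContMDiffAt ((((𝓡 1).prod (𝓡 0))).prod ((𝓡 1).prod (𝓡 0))) (𝓡 1) ω
          (fun q : (Circle × S3) × (Circle × S3) => q.2.1 ^ ((sgn p.1.2 : ℤˣ) : ℤ)) p :=
        (contMDiff_unitPow _).contMDiffAt.comp p contMDiffAt_snd.fst
      exact hf.mul hg
    · exact contMDiffAt_const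
  apply h1.congr_of_eventuallyEq
  have h2 : ∀ᶠ q : (Circle × S3) × (Circle × S3) in 𝓝 p, q.1.2 = p.1.2 ∧ q.2.2 = p.2.2 := by
    apply Filter.Eventually.and
    · have : ContinuousAt (fun q : (Circle × S3) × (Circle × S3) => q.1.2) p := by fun_prop
      exact this.eventually_mem ((isOpen_discrete {p.1.2}).mem_nhds rfl)
    · have : ContinuousAt (fun q : (Circle × S3) × (Circle × S3) => q.2.2) p := by fun_prop
      exact this.eventually_mem ((isOpen_discrete {p.2.2}).mem_nhds rfl)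
  filter_upwards [h2] with q hq
  rw [hq.1, hq.2]

lemma aux_inv (p : Circle × S3) :
    ContMDiffAt ((𝓡 1).prod (𝓡 0)) ((𝓡 1).prod (𝓡 0)) ω
      (fun q : Circle × S3 =>
        (((q.1)⁻¹ ^ ((sgn q.2 : ℤˣ) : ℤ), (q.2)⁻¹) : Circle × S3)) p := by
  have h1 : ContMDiffAt ((𝓡 1).prod (𝓡 0)) ((𝓡 1).prod (𝓡 0)) ω
      (fun q : Circle × S3 =>
        (((q.1)⁻¹ ^ ((sgn p.2 : ℤˣ) : ℤ), (p.2)⁻¹) : Circle × S3)) p := by
    apply ContMDiffAt.prodMk
    · exact (contMDiff_unitPow _).contMDiffAt.comp p contMDiffAt_fst.inv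
    · exact contMDiffAt_const
  apply h1.congr_of_eventuallyEq
  have h2 : ∀ᶠ q : Circle × S3 in 𝓝 p, q.2 = p.2 := by
    have : ContinuousAt (fun q : (Circle × S3) => q.2) p := by fun_prop
    exact this.eventually_mem ((isOpen_discrete {p.2}).mem_nhds rfl)
  filter_upwards [h2] with q hq
  rw [hq]

lemma lieGroup0 : LieGroup ((𝓡 1).prod (𝓡 0)) ω TwG where
  toIsManifold := manifold0
  contMDiff_mul := fun p => aux_mul p
  contMDiff_inv := fun p => aux_inv p

end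

lemma isCompactLieGroup : IsCompactLieGroup TwG := by
  refine ⟨inferInstance, inferInstance, V, inferInstance, inferInstance, charted0, inferInstance, ?_⟩
  have := lieGroup0
  rw [← modelWithCornersSelf_prod] at this
  exact this

end TwG

end
end Pool.Agent.MP_a0fe07
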