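import Pool.Agent.MP_a0fe07.Defs

/-!
# The pages of the Serre spectral sequence

Not used in the statement of the result: this file checks that `CollapsesAtE2` (defined by an
elementwise condition in `Defs.lean`) says that the differentials `d_r : E_r^p → E_r^{p+r}` of the
spectral sequence of the Serre filtration vanish for all `r ≥ 2`, where the pages `E_r^p` are
defined as quotient vector spaces and `d_r` as a linear map.
-/

namespace Pool.Agent.MP_a0fe07

open Topology unitInterval

noncomputable section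

section Cochains

variable {Y : Type*} [TopologicalSpace Y]

@[simp] lemma face_apply {n : ℕ} (i : Fin (n + 1)) (ε : I) (u : SCube Y (n + 1))
    (s : Fin n → I) : face i ε u s = u (i.insertNth ε s) := rfl

variable (Y) in
/-- The rational vector space of rational functions on the set of singular `n`-cubes of `Y` that
vanish on degenerate cubes. -/
def cochains (n : ℕ) : Submodule ℚ (SCube Y n → ℚ) where
  carrier := {f | IsCochain f}
  add_mem' {f g} hf hg u hu := by simp [hf u hu, hg u hu]
  zero_mem' u _ := rfl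
  smul_mem' c f hf u hu := by simp [hf u hu]

variable (Y) in
/-- Normalised cubical singular `n`-cochains of `Y` with rational coefficients. -/
def Cochain (n : ℕ) : Type _ := cochains Y n

instance (n : ℕ) : AddCommGroup (Cochain Y n) := inferInstanceAs (AddCommGroup (cochains Y n))
instance (n : ℕ) : Module ℚ (Cochain Y n) := inferInstanceAs (Module ℚ (cochains Y n))
instance (n : ℕ) : CoeFun (Cochain Y n) (fun _ => SCube Y n → ℚ) := ⟨fun f => f.1⟩

@[simp] lemma Cochain.add_apply {n : ℕ} (f g : Cochain Y n) (u : SCube Y n) :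
    (f + g) u = f u + g u := rfl
@[simp] lemma Cochain.sub_apply {n : ℕ} (f g : Cochain Y n) (u : SCube Y n) :
    (f - g) u = f u - g u := rfl
@[simp] lemma Cochain.smul_apply {n : ℕ} (c : ℚ) (f : Cochain Y n) (u : SCube Y n) :
    (c • f) u = c * f u := rfl
@[simp] lemma Cochain.zero_apply {n : ℕ} (u : SCube Y n) : (0 : Cochain Y n) u = 0 := rfl
lemma Cochain.degenerate {n : ℕ} (f : Cochain Y n) (u : SCube Y n) (hu : Degenerate u) :
    f u = 0 := f.2 u hu
@[ext] lemma Cochain.ext {n : ℕ} {f g : Cochain Y n} (h : ∀ u, f u = g u) : f = g :=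
  Subtype.ext (funext h)

/-- The alternating sum over the faces of a degenerate cube vanishes. -/
lemma sum_face_degenerate {n : ℕ} (f : Cochain Y n) (u : SCube Y (n + 1)) (hu : Degenerate u) :
    ∑ i : Fin (n + 1), (-1 : ℚ) ^ (i : ℕ) * (f (face i 1 u) - f (face i 0 u)) = 0 := by
  apply Finset.sum_eq_zero
  intro i _
  have hu2 : DependsOnFirst n u := hu.2
  rcases eq_or_ne i (Fin.last n) with rfl | hi
  · have : face (Fin.last n) 1 u = face (Fin.last n) 0 u := by
      ext s
      apply hu2
      intro j hj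
      have hj' : j ≠ Fin.last n := by
        rintro rfl
        simp at hj
      obtain ⟨j, rfl⟩ := Fin.exists_succAbove_eq hj'
      simp
    rw [this]; simp
  · have hi' : (i : ℕ) < n := by
      have := i.is_le
      have h2 : (i : ℕ) ≠ n := fun h => hi (Fin.ext (by simpa using h))
      omega
    have key : ∀ ε : I, f (face i ε u) = 0 := by
      intro ε
      apply f.degenerate
      refine ⟨by omega, fun s t hst => ?_⟩
      apply hu2
      intro j hj
      rcases eq_or_ne j i with rfl | hji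
      · simp
      · obtain ⟨j, rfl⟩ := Fin.exists_succAbove_eq hji
        simp only [Fin.insertNth_apply_succAbove]
        apply hst
        by_cases hlt : (j : ℕ) < (i : ℕ)
        · omega
        · have hle : i ≤ j.castSucc := by
            rw [Fin.le_def]; simpa using (not_lt.mp hlt)
          rw [Fin.succAbove_of_le_castSucc _ _ hle] at hj
          simp at hj
          omega
    simp [key]

variable (Y) in
/-- The cubical coboundary as a linear map. -/
def coboundary (n : ℕ) : Cochain Y n →ₗ[ℚ] Cochain Y (n + 1) where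
  toFun f := ⟨cobd f, fun u hu => sum_face_degenerate f u hu⟩
  map_add' f g := by
    ext u
    simp only [Cochain.add_apply]
    change cobd _ u = cobd _ u + cobd _ u
    simp only [cobd, ← Finset.sum_add_distrib]
    exact Finset.sum_congr rfl fun i _ => by simp only [Cochain.add_apply]; ring
  map_smul' c f := by
    ext u
    simp only [Cochain.smul_apply, RingHom.id_apply]
    change cobd _ u = c * cobd _ u
    simp only [cobd, Finset.mul_sum]
    exact Finset.sum_congr rfl fun i _ => by simp only [Cochain.smul_apply]; ring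

lemma coboundary_apply {n : ℕ} (f : Cochain Y n) (u : SCube Y (n + 1)) :
    coboundary Y n f u = ∑ i : Fin (n + 1), (-1 : ℚ) ^ (i : ℕ) *
      (f (face i 1 u) - f (face i 0 u)) := rfl

lemma insertNth_insertNth {n : ℕ} {α : Type*} (i : Fin (n + 2)) (j : Fin (n + 1))
    (h : (i : ℕ) ≤ j) (a b : α) (s : Fin n → α) :
    (i.insertNth a (j.insertNth b s : Fin (n + 1) → α) : Fin (n + 2) → α) =
      j.succ.insertNth b ((i.castLT (by omega)).insertNth a s : Fin (n + 1) → α) := by
  set i' : Fin (n + 1) := i.castLT (by omega) with hi'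
  have hi : i = j.succ.succAbove i' := by
    rw [Fin.succAbove_of_castSucc_lt]
    · ext; simp [hi']
    · rw [Fin.lt_def]; simp [hi']; omega
  have hj : j.succ = i.succAbove j := by
    rw [Fin.succAbove_of_le_castSucc]
    rw [Fin.le_def]; simpa using h
  have hv : ∀ {m : ℕ} (i : Fin (m + 1)) (j : Fin m),
      ((i.succAbove j : Fin (m + 1)) : ℕ) = if (j : ℕ) < i then (j : ℕ) else j + 1 := by
    intro m i j
    by_cases hlt : (j : ℕ) < i
    · rw [if_pos hlt, Fin.succAbove_of_castSucc_lt _ _ (by rw [Fin.lt_def]; simpa using hlt)]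
      simp
    · rw [if_neg hlt, Fin.succAbove_of_le_castSucc _ _ (by rw [Fin.le_def]; simpa using hlt)]
      simp
  have hl : ∀ l : Fin n, i.succAbove (j.succAbove l) = j.succ.succAbove (i'.succAbove l) := by
    intro l
    ext
    rw [hv, hv, hv, hv]
    simp only [hi', Fin.val_succ, Fin.val_castLT]
    split_ifs <;> omega
  funext k
  rcases eq_or_ne k i with rfl | hki
  · rw [Fin.insertNth_apply_same]
    conv_rhs => rw [hi, Fin.insertNth_apply_succAbove]
    rw [Fin.insertNth_apply_same]
  · obtain ⟨k, rfl⟩ := Fin.exists_succAbove_eq hki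
    rw [Fin.insertNth_apply_succAbove]
    rcases eq_or_ne k j with rfl | hkj
    · rw [← hj, Fin.insertNth_apply_same, Fin.insertNth_apply_same]
    · obtain ⟨k, rfl⟩ := Fin.exists_succAbove_eq hkj
      rw [hl, Fin.insertNth_apply_succAbove, Fin.insertNth_apply_succAbove,
        Fin.insertNth_apply_succAbove]

lemma face_face {n : ℕ} (i : Fin (n + 2)) (j : Fin (n + 1)) (h : (i : ℕ) ≤ j) (a b : I)
    (u : SCube Y (n + 2)) :
    face j b (face i a u) = face (i.castLT (by omega)) a (face j.succ b u) := by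
  ext s
  simp only [face_apply]
  rw [insertNth_insertNth i j h a b s]

lemma coboundary_coboundary {n : ℕ} (f : Cochain Y n) :
    coboundary Y (n + 1) (coboundary Y n f) = 0 := by
  ext u
  simp only [coboundary_apply, Cochain.zero_apply, ← Finset.sum_sub_distrib, Finset.mul_sum]
  rw [← Finset.sum_product']
  set b : Fin (n + 2) × Fin (n + 1) → ℚ := fun x =>
    f (face x.2 1 (face x.1 1 u)) - f (face x.2 0 (face x.1 1 u)) -
      (f (face x.2 1 (face x.1 0 u)) - f (face x.2 0 (face x.1 0 u))) with hb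
  have hb2 : ∀ (i : Fin (n + 2)) (j : Fin (n + 1)) (h : (i : ℕ) ≤ j),
      b (j.succ, i.castLT (by omega)) = b (i, j) := by
    intro i j h
    simp only [hb]
    rw [face_face i j h 1 1, face_face i j h 1 0, face_face i j h 0 1, face_face i j h 0 0]
    ring
  let tau : Fin (n + 2) × Fin (n + 1) → Fin (n + 2) × Fin (n + 1) := fun x =>
    if h : (x.1 : ℕ) ≤ x.2 then (x.2.succ, x.1.castLT (by omega))
    else (x.2.castSucc, x.1.pred (by rintro h2; simp [h2] at h))
  apply Finset.sum_involution (fun x _ => tau x)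
  · rintro ⟨i, j⟩ -
    by_cases h : (i : ℕ) ≤ j
    · have hs : tau (i, j) = (j.succ, i.castLT (by omega)) := by simp [tau, h]
      rw [hs]
      have h1 := hb2 i j h
      simp only [hb] at h1
      simp only [Fin.val_succ, Fin.val_castLT]
      rw [pow_succ]
      linear_combination (-1 : ℚ) ^ (j : ℕ) * (-1) * (-1 : ℚ) ^ (i : ℕ) * h1
    · have hs : tau (i, j) = (j.castSucc, i.pred (by rintro h2; simp [h2] at h)) := by simp [tau, h]
      rw [hs]
      have hi0 : i ≠ 0 := by rintro h2; simp [h2] at h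
      obtain ⟨i, rfl⟩ := Fin.exists_succ_eq.mpr hi0
      have h1 := hb2 j.castSucc i (by simp at h ⊢; omega)
      have h2 : (j.castSucc.castLT (by simp; omega) : Fin (n + 1)) = j := by ext; simp
      rw [h2] at h1
      simp only [hb] at h1
      simp only [Fin.val_succ, Fin.val_castSucc, Fin.pred_succ]
      rw [pow_succ]
      linear_combination (-1 : ℚ) ^ (j : ℕ) * (-1) * (-1 : ℚ) ^ (i : ℕ) * h1
  · rintro ⟨i, j⟩ - -
    by_cases h : (i : ℕ) ≤ j
    · have hs : tau (i, j) = (j.succ, i.castLT (by omega)) := by simp [tau, h]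
      rw [hs]
      intro heq
      have := congrArg (fun x => (x.1 : ℕ)) heq
      simp at this
      omega
    · have hs : tau (i, j) = (j.castSucc, i.pred (by rintro h2; simp [h2] at h)) := by simp [tau, h]
      rw [hs]
      intro heq
      have := congrArg (fun x => (x.1 : ℕ)) heq
      simp at this
      omega
  · simp
  · rintro ⟨i, j⟩ -
    by_cases h : (i : ℕ) ≤ j
    · have hs : tau (i, j) = (j.succ, i.castLT (by omega)) := by simp [tau, h]
      rw [hs]
      have h3 : ¬ ((j.succ : Fin (n + 2)) : ℕ) ≤ (i.castLT (by omega) : Fin (n + 1)) := by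
        simp; omega
      simp only [tau]
      rw [dif_neg h3]
      refine Prod.ext (Fin.ext ?_) (Fin.ext ?_) <;> simp
    · have hs : tau (i, j) = (j.castSucc, i.pred (by rintro h2; simp [h2] at h)) := by simp [tau, h]
      rw [hs]
      have h3 : ((j.castSucc : Fin (n + 2)) : ℕ) ≤
          (i.pred (by rintro h2; simp [h2] at h) : Fin (n + 1)) := by
        simp; omega
      simp only [tau]
      rw [dif_pos h3]
      refine Prod.ext (Fin.ext ?_) (Fin.ext ?_) <;> simp


end Cochains

section SerreSS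

variable {Y B : Type*} [TopologicalSpace Y] [TopologicalSpace B] (π : C(Y, B))

/-- The Serre filtration `F^p C^n(Y)`. -/
def Filt (p : ℤ) (n : ℕ) : Submodule ℚ (Cochain Y n) where
  carrier := {f | InF π p f}
  add_mem' {f g} hf hg := ⟨(f + g).2, fun q hq u hu => by
    simp [hf.2 q hq u hu, hg.2 q hq u hu]⟩
  zero_mem' := ⟨(0 : Cochain Y n).2, fun _ _ _ _ => rfl⟩
  smul_mem' c f hf := ⟨(c • f).2, fun q hq u hu => by simp [hf.2 q hq u hu]⟩

/-- `Z_r^p = {x ∈ F^p C^n : δ x ∈ F^{p+r} C^{n+1}}`. -/
def ZZ (r p : ℤ) (n : ℕ) : Submodule ℚ (Cochain Y n) :=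
  Filt π p n ⊓ (Filt π (p + r) (n + 1)).comap (coboundary Y n)

/-- `δ Z_{r-1}^{p-r+1}`, a submodule of `C^n` (zero for `n = 0`). -/
def BB (r p : ℤ) : (n : ℕ) → Submodule ℚ (Cochain Y n)
  | 0 => ⊥
  | n + 1 => (ZZ π (r - 1) (p - r + 1) n).map (coboundary Y n)

/-- The denominator `Z_{r-1}^{p+1} + δ Z_{r-1}^{p-r+1}`, as a submodule of `Z_r^p`. -/
def Den (r p : ℤ) (n : ℕ) : Submodule ℚ (ZZ π r p n) :=
  (ZZ π (r - 1) (p + 1) n ⊔ BB π r p n).submoduleOf (ZZ π r p n)

/-- The term `E_r^{p, n-p} = Z_r^p / (Z_{r-1}^{p+1} + δ Z_{r-1}^{p-r+1})` of total degree `n` of the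
spectral sequence of the Serre filtration. -/
def EE (r p : ℤ) (n : ℕ) : Type _ := ZZ π r p n ⧸ Den π r p n

instance (r p : ℤ) (n : ℕ) : AddCommGroup (EE π r p n) :=
  inferInstanceAs (AddCommGroup (ZZ π r p n ⧸ Den π r p n))
instance (r p : ℤ) (n : ℕ) : Module ℚ (EE π r p n) :=
  inferInstanceAs (Module ℚ (ZZ π r p n ⧸ Den π r p n))

lemma coboundary_mem_ZZ {r p : ℤ} {n : ℕ} (x : Cochain Y n) (hx : x ∈ ZZ π r p n) :
    coboundary Y n x ∈ ZZ π r (p + r) (n + 1) := by
  refine ⟨hx.2, ?_⟩
  simp [coboundary_coboundary]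

/-- The coboundary as a map `Z_r^p → Z_r^{p+r}`. -/
def dZ (r p : ℤ) (n : ℕ) : ZZ π r p n →ₗ[ℚ] ZZ π r (p + r) (n + 1) :=
  (coboundary Y n).restrict (fun x hx => coboundary_mem_ZZ π x hx)

lemma dZ_mem (r p : ℤ) (n : ℕ) : Den π r p n ≤ (Den π r (p + r) (n + 1)).comap (dZ π r p n) := by
  rintro ⟨x, hx⟩ hx2
  rw [Den, Submodule.submoduleOf, Submodule.mem_comap] at hx2
  rw [Submodule.mem_comap, Den, Submodule.submoduleOf, Submodule.mem_comap]
  obtain ⟨y, hy, z, hz, hyz⟩ := Submodule.mem_sup.mp hx2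
  apply Submodule.mem_sup_right
  change coboundary Y n x ∈ _
  simp only [Submodule.subtype_apply] at hyz
  rw [← hyz, map_add]
  have h0 : coboundary Y n z = 0 := by
    cases n with
    | zero =>
      have : z = 0 := hz
      simp [this]
    | succ n =>
      obtain ⟨w, -, rfl⟩ := hz
      exact coboundary_coboundary w
  rw [h0, add_zero]
  refine ⟨y, ?_, rfl⟩
  have h1 : p + r - r + 1 = p + 1 := by ring
  rw [h1]
  exact hy

/-- The differential `d_r : E_r^{p,n-p} → E_r^{p+r,n+1-(p+r)}` induced by the coboundary. -/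
def dd (r p : ℤ) (n : ℕ) : EE π r p n →ₗ[ℚ] EE π r (p + r) (n + 1) :=
  (Den π r p n).mapQ (Den π r (p + r) (n + 1)) (dZ π r p n) (dZ_mem π r p n)

/-- `CollapsesAtE2` says that all differentials `d_r`, `r ≥ 2`, of the spectral sequence of the
Serre filtration vanish. -/
theorem collapsesAtE2_iff : CollapsesAtE2 π ↔ ∀ r : ℤ, 2 ≤ r → ∀ (p : ℤ) (n : ℕ), dd π r p n = 0 := by
  unfold CollapsesAtE2
  refine forall_congr' fun r => forall_congr' fun _ => forall_congr' fun p => forall_congr' fun n => ?_
  have hcoe : ∀ {m : ℕ} (f : Cochain Y m), (coboundary Y m f).1 = cobd f := fun f => rfl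
  constructor
  · intro h
    apply LinearMap.ext
    intro x
    obtain ⟨⟨x, hx⟩, rfl⟩ := Submodule.Quotient.mk_surjective _ x
    obtain ⟨y, w, hy, hw, hxy⟩ := h x.1 ⟨hx.1, hx.2⟩
    change Submodule.Quotient.mk (dZ π r p n ⟨x, hx⟩) = 0
    rw [Submodule.Quotient.mk_eq_zero, Den, Submodule.submoduleOf, Submodule.mem_comap]
    let w' : Cochain Y n := ⟨w, hw.1.1⟩
    let y' : Cochain Y (n + 1) := ⟨y, hy.1.1⟩
    have hw' : w' ∈ ZZ π (r - 1) (p + 1) n := ⟨hw.1, hw.2⟩
    have hy' : y' ∈ ZZ π (r - 1) (p + r + 1) (n + 1) := ⟨hy.1, hy.2⟩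
    have hxy' : coboundary Y n x = y' + coboundary Y n w' := Subtype.ext hxy
    change coboundary Y n x ∈ _
    rw [hxy']
    refine Submodule.add_mem_sup hy' ?_
    refine ⟨w', ?_, rfl⟩
    have h1 : p + r - r + 1 = p + 1 := by ring
    rw [h1]
    exact hw'
  · intro h x hx
    let x' : Cochain Y n := ⟨x, hx.1.1⟩
    have hx' : x' ∈ ZZ π r p n := ⟨hx.1, hx.2⟩
    have h1 : dd π r p n (Submodule.Quotient.mk ⟨x', hx'⟩) = 0 := by rw [h]; rfl
    change Submodule.Quotient.mk (dZ π r p n ⟨x', hx'⟩) = 0 at h1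
    rw [Submodule.Quotient.mk_eq_zero, Den, Submodule.submoduleOf, Submodule.mem_comap] at h1
    obtain ⟨y, hy, z, ⟨w, hw, rfl⟩, hyz⟩ := Submodule.mem_sup.mp h1
    refine ⟨y.1, w.1, ⟨hy.1, hy.2⟩, ?_, ?_⟩
    · have h1 : p + r - r + 1 = p + 1 := by ring
      rw [h1] at hw
      exact ⟨hw.1, hw.2⟩
    · have := congrArg Subtype.val hyz
      exact this.symm

end SerreSS

end

end Pool.Agent.MP_a0fe07
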