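import Pool.Agent.MP_a0fe07.Lift
import Pool.Agent.MP_a0fe07.Pages
namespace Pool.Agent.MP_a0fe07

open Topology unitInterval
open scoped Manifold ContDiff

noncomputable section

section Main

variable {G X : Type*} [Group G] [TopologicalSpace G] [IsTopologicalGroup G]
  [TopologicalSpace X] [MulAction G X] [ContinuousSMul G X]

/-- Translate of a singular cube by a group element. -/
def trans {n : ℕ} (g : G) (u : SCube X n) : SCube X n := ⟨fun s => g • u s, by fun_prop⟩

/-- The cube `s ↦ z(s) • ρ`. -/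
def orbitCube {n : ℕ} (z : SCube G n) (ρ : X) : SCube X n := ⟨fun s => z s • ρ, by fun_prop⟩

lemma insertNth_zero' (a : I) (s : Fin 1 → I) :
    ((0 : Fin 2).insertNth a s : Fin 2 → I) = ![a, s 0] := by
  funext i; fin_cases i <;> simp

lemma insertNth_one' (a : I) (s : Fin 1 → I) :
    ((1 : Fin 2).insertNth a s : Fin 2 → I) = ![s 0, a] := by
  funext i
  fin_cases i
  · change (1 : Fin 2).insertNth (α := fun _ => I) a s ((1 : Fin 2).succAbove 0) = _
    rw [Fin.insertNth_apply_succAbove]; simp
  · change (1 : Fin 2).insertNth (α := fun _ => I) a s 1 = _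
    rw [Fin.insertNth_apply_same]; simp

lemma coboundary_two {Y : Type*} [TopologicalSpace Y] (f : Cochain Y 1) (u : SCube Y 2) :
    coboundary Y 1 f u = (f (face 0 1 u) - f (face 0 0 u)) - (f (face 1 1 u) - f (face 1 0 u)) := by
  rw [coboundary_apply, Fin.sum_univ_two]
  simp
  ring

theorem not_collapses {E : Type*} [TopologicalSpace E] [MulAction G E]
    (hE : IsUniversalBundle G E) (α : Cochain X 1)
    (hinv : ∀ (g : G) (u : SCube X 1), α (trans g u) = α u)
    (hcoc : coboundary X 1 α = 0)
    (z : SCube G 1) (hz : z 0 = z 1) (ρ : X) (hne : α (orbitCube z ρ) ≠ 0) :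
    ¬ CollapsesAtE2 (borelProj G E X) := by
  intro hcol
  have := hE.continuousSMul
  have := hE.contractible
  choose L hL hLc using hE.cube_lifting
  -- the cube of `X` belonging to a cube of the homotopy orbit space
  have hΞ : ∀ γ : SCube (Orbits G (E × X)) 1, ∃ ξ : SCube X 1,
      ∀ s, γ s = orb G (L ((borelProj G E X).comp γ) s, ξ s) := fun γ =>
    hE.division (L ((borelProj G E X).comp γ)) γ (fun s => by rw [hL]; rfl)
  choose Ξ hΞ using hΞ
  have hΞu : ∀ (γ : SCube (Orbits G (E × X)) 1) (ξ : SCube X 1),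
      (∀ s, γ s = orb G (L ((borelProj G E X).comp γ) s, ξ s)) → Ξ γ = ξ := by
    intro γ ξ h
    ext1 s
    exact hE.orb_inj ((hΞ γ s).symm.trans (h s))
  -- vertical cubes
  have hvert : ∀ (γ : SCube (Orbits G (E × X)) 1) (e : E) (ξ : SCube X 1),
      (∀ s, γ s = orb G (e, ξ s)) → α (Ξ γ) = α ξ := by
    intro γ e ξ h
    have hb : ∀ s t, ((borelProj G E X).comp γ) s = ((borelProj G E X).comp γ) t := by
      intro s t
      simp only [ContinuousMap.comp_apply, h, borelProj_orb]
    have hc := hLc _ hb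
    have h1 : orb G (L ((borelProj G E X).comp γ) 0) = orb G e := by
      rw [hL, ContinuousMap.comp_apply, h, borelProj_orb]
    obtain ⟨g, hg⟩ := orb_eq_orb.mp h1
    have h2 : Ξ γ = trans g ξ := by
      apply hΞu
      intro s
      rw [hc s 0, h s, ← hg]
      change _ = orb G (g • e, g • ξ s)
      exact (orb_eq_orb.mpr ⟨g, rfl⟩).symm
    rw [h2, hinv]
  -- the cochain `x`
  let x : Cochain (Orbits G (E × X)) 1 := ⟨fun γ => α (Ξ γ), by
    intro γ hγ
    have hγ2 : ∀ s t, γ s = γ t := fun s t => hγ.2 s t (by intro i hi; omega)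
    have h1 : α (Ξ γ) = α (ContinuousMap.const _ (Ξ γ 0)) := by
      apply hvert γ (L ((borelProj G E X).comp γ) 0)
      intro s
      rw [hγ2 s 0]
      exact hΞ γ 0
    change α (Ξ γ) = 0
    rw [h1]
    exact α.degenerate _ ⟨one_pos, fun s t _ => rfl⟩⟩
  have hx : ∀ γ, x γ = α (Ξ γ) := fun γ => rfl
  -- `x ∈ Z_2^0`
  have hxZ : x ∈ ZZ (borelProj G E X) 2 0 1 := by
    refine ⟨⟨x.2, fun q hq => by omega⟩, ⟨(coboundary _ 1 x).2, ?_⟩⟩
    intro q hq u hu
    have hu1 : DependsOnFirst 1 (fun s => borelProj G E X (u s)) := by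
      intro s t hst
      apply hu
      intro i hi
      exact hst i (by omega)
    -- the base cube
    set b : SCube (Orbits G E) 1 := (borelProj G E X).comp (face 1 0 u) with hb
    have hbε : ∀ ε : I, (borelProj G E X).comp (face 1 ε u) = b := by
      intro ε
      ext1 s
      simp only [hb, ContinuousMap.comp_apply, face_apply]
      apply hu1
      intro i hi
      have : i = 0 := by ext; simpa using hi
      subst this
      rw [insertNth_one', insertNth_one']
      simp
    obtain ⟨ξ, hξ⟩ := hE.division (T := Fin 2 → I)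
      ((L b).comp ⟨fun s _ => s 0, by fun_prop⟩) u (by
        intro s
        simp only [ContinuousMap.comp_apply, ContinuousMap.coe_mk, hL, hb, face_apply]
        apply hu1
        intro i hi
        have : i = 0 := by ext; simpa using hi
        subst this
        rw [insertNth_one']
        simp)
    simp only [ContinuousMap.comp_apply, ContinuousMap.coe_mk] at hξ
    have hf1 : ∀ ε : I, x (face 1 ε u) = α (face 1 ε ξ) := by
      intro ε
      have h0 : Ξ (face 1 ε u) = face 1 ε ξ := by
        apply hΞu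
        intro s
        rw [hbε, face_apply, hξ, face_apply, insertNth_one']
        have : (fun _ => ![s 0, ε] 0 : Fin 1 → I) = s := by
          funext i; rw [Subsingleton.elim i 0]; simp
        rw [this]
      rw [hx, h0]
    have hf0 : ∀ ε : I, x (face 0 ε u) = α (face 0 ε ξ) := by
      intro ε
      rw [hx]
      apply hvert _ (L b (fun _ => ε))
      intro s
      rw [face_apply, hξ, face_apply, insertNth_zero']
      simp
    change coboundary _ 1 x u = 0
    have h3 : coboundary X 1 α ξ = 0 := by rw [hcoc]; rfl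
    rw [coboundary_two] at h3 ⊢
    rw [hf0, hf0, hf1, hf1]
    exact h3
  -- collapse gives `y`
  have h2 : coboundary _ 1 x ∈ ZZ (borelProj G E X) (2 - 1) (0 + 2 + 1) 2 ⊔
      BB (borelProj G E X) 2 (0 + 2) 2 := by
    have h3 : dd (borelProj G E X) 2 0 1 (Submodule.Quotient.mk ⟨x, hxZ⟩) = 0 := by
      rw [(collapsesAtE2_iff _).mp hcol 2 le_rfl 0 1]; rfl
    change Submodule.Quotient.mk (⟨coboundary _ 1 x, coboundary_mem_ZZ _ x hxZ⟩ :
      ZZ (borelProj G E X) 2 (0 + 2) 2) = 0 at h3
    rw [Submodule.Quotient.mk_eq_zero] at h3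
    exact h3
  obtain ⟨y1, hy1, y2, ⟨y, hy, rfl⟩, hyx⟩ := Submodule.mem_sup.mp h2
  have hy10 : y1 = 0 := by
    ext u
    apply hy1.1.2 2 (by norm_num) u
    intro s t hst
    have : s = t := by funext i; exact hst i i.2
    rw [this]
  rw [hy10, zero_add] at hyx
  have hyv : ∀ (γ : SCube (Orbits G (E × X)) 1),
      (∀ s t, borelProj G E X (γ s) = borelProj G E X (γ t)) → y γ = 0 := by
    intro γ hγ
    exact hy.1.2 0 (by norm_num) γ (fun s t _ => hγ s t)
  -- the cocycle `β`
  set β : Cochain (Orbits G (E × X)) 1 := x - y with hβ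
  have hβc : coboundary _ 1 β = 0 := by rw [hβ, map_sub, ← hyx, sub_self]
  obtain ⟨e₀⟩ : Nonempty E := inferInstance
  obtain ⟨c, ⟨H⟩⟩ := id_nullhomotopic E
  let u : SCube (Orbits G (E × X)) 2 :=
    ⟨fun s => orb G (H (s 0, (z (fun _ => s 1))⁻¹ • e₀), ρ), by
      have : Continuous (orb G : E × X → Orbits G (E × X)) := continuous_quot_mk
      fun_prop⟩
  have hu : ∀ s, u s = orb G (H (s 0, (z (fun _ => s 1))⁻¹ • e₀), ρ) := fun s => rfl
  have h01 : ∀ s t, face 0 1 u s = face 0 1 u t := by
    intro s t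
    simp only [face_apply, insertNth_zero', hu]
    simp
  have h00 : ∀ s, face 0 0 u s = orb G (e₀, orbitCube z ρ s) := by
    intro s
    simp only [face_apply, insertNth_zero', hu]
    have hs : (fun _ => ![(0 : I), s 0] 1 : Fin 1 → I) = s := by
      funext i; rw [Subsingleton.elim i 0]; simp
    rw [hs]
    simp only [Matrix.cons_val_zero, ContinuousMap.Homotopy.apply_zero, ContinuousMap.id_apply]
    apply orb_eq_orb.mpr
    refine ⟨(z s)⁻¹, ?_⟩
    change ((z s)⁻¹ • e₀, (z s)⁻¹ • (z s • ρ)) = _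
    rw [inv_smul_smul]
  have h1' : face 1 1 u = face 1 0 u := by
    ext1 s
    simp only [face_apply, insertNth_one', hu]
    have hs0 : (fun _ => ![s 0, (0 : I)] 1 : Fin 1 → I) = 0 := by
      funext i; simp
    have hs1 : (fun _ => ![s 0, (1 : I)] 1 : Fin 1 → I) = 1 := by
      funext i; simp
    rw [hs0, hs1, hz]
    simp
  have h4 : coboundary _ 1 β u = 0 := by rw [hβc]; rfl
  rw [coboundary_two, h1', sub_self, sub_zero,
    β.degenerate (face 0 1 u) ⟨one_pos, fun s t _ => h01 s t⟩, zero_sub, neg_eq_zero] at h4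
  have h5 : y (face 0 0 u) = 0 := by
    apply hyv
    intro s t
    rw [h00, h00, borelProj_orb, borelProj_orb]
  have h6 : x (face 0 0 u) = α (orbitCube z ρ) := by
    rw [hx]
    exact hvert _ e₀ _ h00
  rw [hβ, Cochain.sub_apply, h5, h6, sub_zero] at h4
  exact hne h4

end Main

end
end Pool.Agent.MP_a0fe07
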