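import Pool.Agent.MP_a0fe07.Main
import Pool.Agent.MP_a0fe07.Group
namespace Pool.Agent.MP_a0fe07

open Topology unitInterval
open scoped Manifold ContDiff

noncomputable section

/-! ## Lifting of maps from cubes to the circle -/

lemma exists_lift {n : ℕ} (c : C(Fin n → I, Circle)) :
    ∃ θ : C(Fin n → I, ℝ), ∀ s, Circle.exp (θ s) = c s := by
  let cl : C(Fin n → ℝ, Fin n → I) := ⟨fun v i => Set.projIcc 0 1 zero_le_one (v i), by fun_prop⟩
  obtain ⟨e₀, he₀⟩ := Circle.exp_surjective ((c.comp cl) 0)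
  obtain ⟨F, ⟨-, hF⟩, -⟩ := Circle.isCoveringMap_exp.existsUnique_continuousMap_lifts
    (c.comp cl) 0 e₀ he₀
  refine ⟨F.comp ⟨fun s i => (s i : ℝ), by fun_prop⟩, fun s => ?_⟩
  have := congrFun hF (fun i => (s i : ℝ))
  simp only [Function.comp_apply, ContinuousMap.comp_apply, ContinuousMap.coe_mk] at this ⊢
  rw [this]
  congr 1
  funext i
  simp [cl]

lemma lift_sub_eq {c : C(Fin 1 → I, Circle)} {θ θ' : C(Fin 1 → I, ℝ)}
    (h : ∀ s, Circle.exp (θ s) = c s) (h' : ∀ s, Circle.exp (θ' s) = c s) (s t : Fin 1 → I) :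
    θ s - θ t = θ' s - θ' t := by
  have key : (fun u => θ u) = fun u => θ' u + (θ t - θ' t) := by
    apply Circle.isCoveringMap_exp.eq_of_comp_eq (by fun_prop) (by fun_prop) ?_ t (by simp)
    funext u
    simp only [Function.comp_apply, Circle.exp_add, Circle.exp_sub, h, h']
    simp
  have := congrFun key s
  linarith

/-- The total change of the angle, measured in turns, along a path in the circle. -/
def turns (c : C(Fin 1 → I, Circle)) : ℝ :=
  ((exists_lift c).choose 1 - (exists_lift c).choose 0) / (2 * Real.pi)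

lemma turns_eq {c : C(Fin 1 → I, Circle)} (θ : C(Fin 1 → I, ℝ))
    (h : ∀ s, Circle.exp (θ s) = c s) : turns c = (θ 1 - θ 0) / (2 * Real.pi) := by
  rw [turns, lift_sub_eq (exists_lift c).choose_spec h]

lemma exists_phi : ∃ φ : ℝ →ₗ[ℚ] ℚ, φ 1 = 1 := by
  obtain ⟨g, hg⟩ := (Algebra.linearMap ℚ ℝ).exists_leftInverse_of_injective
    (LinearMap.ker_eq_bot.mpr (by
      intro a b h
      simpa using h))
  refine ⟨g, ?_⟩
  have := congrArg (fun f => f 1) hg
  simpa using this

/-- A `ℚ`-linear projection `ℝ → ℚ`. -/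
def phi : ℝ →ₗ[ℚ] ℚ := exists_phi.choose

lemma phi_one : phi 1 = 1 := exists_phi.choose_spec

/-! ## A class function on `S₃` twisted by the sign -/

/-- `1` on the 3-cycle `c = (0 1 2)`, `-1` on its inverse, `0` elsewhere. -/
def cyc (f : S3) : ℤ :=
  if f = (finRotate 3 : Equiv.Perm (Fin 3)) then 1
  else if f = (finRotate 3 : Equiv.Perm (Fin 3))⁻¹ then -1 else 0

lemma cyc_conj (f h : S3) : cyc (f * h * f⁻¹) = ((sgn f : ℤˣ) : ℤ) * cyc h := by
  revert f h
  change ∀ f h : Equiv.Perm (Fin 3), (if f * h * f⁻¹ = finRotate 3 then (1 : ℤ) else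
    if f * h * f⁻¹ = (finRotate 3)⁻¹ then -1 else 0) =
      ((Equiv.Perm.sign f : ℤˣ) : ℤ) * (if h = finRotate 3 then (1 : ℤ) else
        if h = (finRotate 3)⁻¹ then -1 else 0)
  decide

end
end Pool.Agent.MP_a0fe07
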